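import Mathlib

set_option autoImplicit false

/-!
# PDC-MN-PSer: noncommutative power series over ℤ (functions on words) and the Magnus homomorphism

PLAN.  mul_assoc': both sides at w are the sum over 0 ≤ i ≤ j ≤ |w| of f(w[0:i]) g(w[i:j]) h(w[j:]); `List.take_take`,
`List.drop_drop`, `List.drop_take`; Finset.sum_sigma' and a bijection (or induction on w: prove first the recursion
(f * g)(x :: w) = f [] * g (x :: w) + ((fun u => f (x :: u)) * g)(w) and deduce associativity by induction on w).
one_mul', mul_one': only the splitting at 0 resp. |w| contributes.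
pl_mul_pli: (1 + x)(1 - x + x² - ...) = 1: with the recursion: (pl x * pli x)(y :: w) = pli x (y :: w) + (if y = x then pli x w else 0).
pli_mul_pl: similarly from the right (`List.reverseRecOn`), or: induction with the recursion
 (pli x * pl x)(y :: w) = pl x (y :: w) + (if y = x then -(pli x * pl x)(w) else 0).
-/

namespace Pool.Agent.PDC.MN

/-- Noncommutative power series over `ℤ`. -/
structure PS (X : Type) where
  c : List X → ℤ

section
variable {X : Type}

theorem PS.ext' {f g : PS X} (h : ∀ w, f.c w = g.c w) : f = g := by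
  cases f
  cases g
  simp only [PS.mk.injEq]
  exact funext h

instance : Mul (PS X) :=
  ⟨fun f g => ⟨fun w => ∑ i ∈ Finset.range (w.length + 1), f.c (w.take i) * g.c (w.drop i)⟩⟩

instance : One (PS X) := ⟨⟨fun w => if w.isEmpty then 1 else 0⟩⟩

theorem ps_mul_c (f g : PS X) (w : List X) :
    (f * g).c w = ∑ i ∈ Finset.range (w.length + 1), f.c (w.take i) * g.c (w.drop i) := rfl

theorem ps_one_c (w : List X) : (1 : PS X).c w = if w.isEmpty then 1 else 0 := rfl

/-- shift by a letter -/
private def sh (x : X) (f : PS X) : PS X := ⟨fun u => f.c (x :: u)⟩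

private theorem mul_nil (f g : PS X) : (f * g).c [] = f.c [] * g.c [] := by
  rw [ps_mul_c]
  simp

private theorem mul_cons (f g : PS X) (x : X) (w : List X) :
    (f * g).c (x :: w) = f.c [] * g.c (x :: w) + (sh x f * g).c w := by
  rw [ps_mul_c, ps_mul_c, List.length_cons, Finset.sum_range_succ']
  simp only [List.take_succ_cons, List.drop_succ_cons, List.take_zero, List.drop_zero]
  rw [add_comm]
  rfl

private theorem lin_mul (a : ℤ) (k l h : PS X) (w : List X) :
    ((⟨fun u => a * k.c u + l.c u⟩ : PS X) * h).c w = a * (k * h).c w + (l * h).c w := by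
  rw [ps_mul_c, ps_mul_c, ps_mul_c, Finset.mul_sum, ← Finset.sum_add_distrib]
  refine Finset.sum_congr rfl fun i _ => ?_
  ring

private theorem zero_mul' (h : PS X) (w : List X) :
    ((⟨fun _ => 0⟩ : PS X) * h).c w = 0 := by
  rw [ps_mul_c]
  simp

private theorem neg_mul' (k h : PS X) (w : List X) :
    ((⟨fun u => -k.c u⟩ : PS X) * h).c w = -(k * h).c w := by
  rw [ps_mul_c, ps_mul_c, ← Finset.sum_neg_distrib]
  refine Finset.sum_congr rfl fun i _ => ?_
  ring

private theorem sh_mul (x : X) (f g : PS X) :
    sh x (f * g) = ⟨fun u => f.c [] * (sh x g).c u + (sh x f * g).c u⟩ := by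
  apply PS.ext'
  intro u
  exact mul_cons f g x u

private theorem assoc_c (g h : PS X) (w : List X) :
    ∀ f : PS X, (f * g * h).c w = (f * (g * h)).c w := by
  induction w with
  | nil =>
    intro f
    rw [mul_nil, mul_nil, mul_nil, mul_nil, mul_assoc]
  | cons x w ih =>
    intro f
    rw [mul_cons, mul_cons f, mul_cons g, mul_nil, sh_mul, lin_mul, ih]
    ring

theorem ps_mul_assoc (f g h : PS X) : f * g * h = f * (g * h) :=
  PS.ext' fun w => assoc_c g h w f

private theorem one_nil : (1 : PS X).c [] = 1 := rfl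

private theorem one_cons (x : X) (w : List X) : (1 : PS X).c (x :: w) = 0 := rfl

private theorem sh_one (x : X) : sh x (1 : PS X) = ⟨fun _ => 0⟩ := rfl

theorem ps_one_mul (f : PS X) : 1 * f = f := by
  apply PS.ext'
  intro w
  cases w with
  | nil => rw [mul_nil, one_nil, one_mul]
  | cons x w => rw [mul_cons, one_nil, one_mul, sh_one, zero_mul', add_zero]

private theorem mul_one_c (w : List X) : ∀ f : PS X, (f * 1).c w = f.c w := by
  induction w with
  | nil =>
    intro f
    rw [mul_nil, one_nil, mul_one]
  | cons x w ih =>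
    intro f
    rw [mul_cons, one_cons, mul_zero, zero_add, ih]
    rfl

theorem ps_mul_one (f : PS X) : f * 1 = f := PS.ext' fun w => mul_one_c w f

instance : Monoid (PS X) where
  mul_assoc := ps_mul_assoc
  one_mul := ps_one_mul
  mul_one := ps_mul_one

open scoped Classical in
/-- the series `1 + x` -/
noncomputable def pl (x : X) : PS X := ⟨fun w => if w = [] ∨ w = [x] then 1 else 0⟩

open scoped Classical in
/-- the series `1 - x + x² - …` -/
noncomputable def pli (x : X) : PS X := ⟨fun w => if ∀ y ∈ w, y = x then (-1) ^ w.length else 0⟩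

private theorem pl_nil (x : X) : (pl x).c [] = 1 := by
  simp [pl]

private theorem pli_nil (x : X) : (pli x).c [] = 1 := by
  simp [pli]

private theorem sh_pl_self (x : X) : sh x (pl x) = 1 := by
  apply PS.ext'
  intro w
  cases w with
  | nil => simp [sh, pl, one_nil]
  | cons y w => simp [sh, pl, one_cons]

private theorem sh_pl_ne {x y : X} (h : y ≠ x) : sh y (pl x) = ⟨fun _ => 0⟩ := by
  apply PS.ext'
  intro w
  simp [sh, pl, h]

private theorem sh_pli_self (x : X) : sh x (pli x) = ⟨fun u => -(pli x).c u⟩ := by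
  classical
  apply PS.ext'
  intro w
  by_cases h : ∀ y ∈ w, y = x
  · have h2 : ∀ y ∈ x :: w, y = x := by
      intro y hy
      rcases List.mem_cons.1 hy with h1 | h1
      · exact h1
      · exact h y h1
    simp only [sh, pli, if_pos h, if_pos h2, List.length_cons]
    ring
  · have h2 : ¬ ∀ y ∈ x :: w, y = x := fun h3 => h fun y hy => h3 y (List.mem_cons_of_mem _ hy)
    simp only [sh, pli, if_neg h, if_neg h2, neg_zero]

private theorem sh_pli_ne {x y : X} (h : y ≠ x) : sh y (pli x) = ⟨fun _ => 0⟩ := by
  classical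
  apply PS.ext'
  intro w
  have h2 : ¬ ∀ z ∈ y :: w, z = x := fun h3 => h (h3 y List.mem_cons_self)
  simp only [sh, pli, if_neg h2]

theorem pl_mul_pli (x : X) : pl x * pli x = 1 := by
  classical
  apply PS.ext'
  intro w
  cases w with
  | nil => rw [mul_nil, pl_nil, pli_nil, one_nil, one_mul]
  | cons y w =>
    rw [mul_cons, pl_nil, one_mul, one_cons]
    by_cases h : y = x
    · subst h
      rw [sh_pl_self, ps_one_mul]
      have h1 : (pli y).c (y :: w) = (sh y (pli y)).c w := rfl
      rw [h1, sh_pli_self]
      simp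
    · have h1 : (pli x).c (y :: w) = (sh y (pli x)).c w := rfl
      rw [sh_pl_ne h, zero_mul', h1, sh_pli_ne h, add_zero]

private theorem pli_pl_c (x : X) (w : List X) : (pli x * pl x).c w = (1 : PS X).c w := by
  classical
  induction w with
  | nil => rw [mul_nil, pl_nil, pli_nil, one_nil, one_mul]
  | cons y w ih =>
    rw [mul_cons, pli_nil, one_mul, one_cons]
    by_cases h : y = x
    · subst h
      rw [sh_pli_self, neg_mul', ih]
      have h1 : (pl y).c (y :: w) = (sh y (pl y)).c w := rfl
      rw [h1, sh_pl_self]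
      ring
    · have h1 : (pl x).c (y :: w) = (sh y (pl x)).c w := rfl
      rw [sh_pli_ne h, zero_mul', h1, sh_pl_ne h, add_zero]

theorem pli_mul_pl (x : X) : pli x * pl x = 1 := PS.ext' (pli_pl_c x)

/-- The Magnus homomorphism. -/
noncomputable def mg : FreeGroup X →* (PS X)ˣ :=
  FreeGroup.lift (fun x => ⟨pl x, pli x, pl_mul_pli x, pli_mul_pl x⟩)

/-- Magnus coefficients. -/
noncomputable def mc (g : FreeGroup X) (w : List X) : ℤ := ((mg g : (PS X)ˣ) : PS X).c w

theorem mc_mul (g h : FreeGroup X) (w : List X) :
    mc (g * h) w = ∑ i ∈ Finset.range (w.length + 1), mc g (w.take i) * mc h (w.drop i) := by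
  rw [mc, map_mul, Units.val_mul, ps_mul_c]
  rfl

theorem mc_one (w : List X) : mc (1 : FreeGroup X) w = if w.isEmpty then 1 else 0 := by
  rw [mc, map_one, Units.val_one, ps_one_c]

open scoped Classical in
theorem mc_of (x : X) (w : List X) :
    mc (FreeGroup.of x) w = if w = [] ∨ w = [x] then 1 else 0 := by
  rw [mc, mg, FreeGroup.lift_apply_of]
  rfl

open scoped Classical in
theorem mc_of_inv (x : X) (w : List X) :
    mc (FreeGroup.of x)⁻¹ w = if ∀ y ∈ w, y = x then (-1) ^ w.length else 0 := by
  rw [mc, map_inv, mg, FreeGroup.lift_apply_of]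
  rfl

end

end Pool.Agent.PDC.MN
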