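import Mathlib
import Pool.Agent.PDC.MN.PSer

set_option autoImplicit false

/-!
# PDC-MN-MagA: Magnus coefficients: constant term, finiteness, naturality

PLAN.  All by `FreeGroup.induction_on` (cases 1, of x, (of x)⁻¹, product) using mc_one, mc_of, mc_of_inv, mc_mul.
mc_nil: range 1.  mc_fin: for a product, w of length n with nonzero coefficient is u ++ v with u, v in the finite sets for lengths
i, n - i: finite union of images.  (of x)⁻¹: only w = List.replicate n x.
mc_map: σ injective; take and drop commute with map (`List.map_take`, `List.map_drop`).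
mc_zero_of: if a word w contains a letter not ... is not needed.
-/

namespace Pool.Agent.PDC.MN

section
variable {X : Type}

theorem mc_nil (g : FreeGroup X) : mc g [] = 1 := by
  induction g using FreeGroup.induction_on with
  | C1 => rw [mc_one]; rfl
  | of x =>
    have h := mc_of x ([] : List X)
    rw [if_pos (Or.inl rfl)] at h
    exact h
  | inv_of x _ =>
    have h := mc_of_inv x ([] : List X)
    rw [if_pos (by simp)] at h
    simpa using h
  | mul g h hg hh =>
    rw [mc_mul]
    simp [hg, hh]

theorem mc_fin (g : FreeGroup X) (n : ℕ) : {w : List X | w.length = n ∧ mc g w ≠ 0}.Finite := by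
  classical
  induction g using FreeGroup.induction_on generalizing n with
  | C1 =>
    apply (Set.finite_singleton ([] : List X)).subset
    rintro w ⟨_, h2⟩
    rw [mc_one] at h2
    by_contra h3
    apply h2
    have h4 : w ≠ [] := h3
    have h5 : w.isEmpty = false := by
      cases w with
      | nil => exact absurd rfl h4
      | cons a w => rfl
    rw [h5]
    simp
  | of x =>
    apply ((Set.finite_singleton ([] : List X)).union (Set.finite_singleton [x])).subset
    rintro w ⟨_, h2⟩
    have h3 := mc_of x w
    rw [h3] at h2
    by_contra h5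
    apply h2
    rw [if_neg]
    intro h6
    exact h5 h6
  | inv_of x _ =>
    apply (Set.finite_singleton (List.replicate n x)).subset
    rintro w ⟨h1, h2⟩
    have h3 := mc_of_inv x w
    rw [h3] at h2
    by_contra h5
    apply h2
    rw [if_neg]
    intro h6
    exact h5 (List.eq_replicate_iff.2 ⟨h1, h6⟩)
  | mul g h hg hh =>
    have hfin : (⋃ i ∈ Finset.range (n + 1), Set.image2 (fun u v : List X => u ++ v)
        {w : List X | w.length = i ∧ mc g w ≠ 0}
        {w : List X | w.length = n - i ∧ mc h w ≠ 0}).Finite := by
      apply Set.Finite.biUnion (Finset.finite_toSet _)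
      intro i _
      exact Set.Finite.image2 _ (hg i) (hh (n - i))
    apply hfin.subset
    rintro w ⟨h1, h2⟩
    rw [mc_mul] at h2
    obtain ⟨i, hi, h3⟩ := Finset.exists_ne_zero_of_sum_ne_zero h2
    rw [Set.mem_iUnion₂]
    rw [h1] at hi
    refine ⟨i, hi, ?_⟩
    rw [Finset.mem_range] at hi
    refine ⟨w.take i, ⟨?_, left_ne_zero_of_mul h3⟩, w.drop i, ⟨?_, right_ne_zero_of_mul h3⟩,
      List.take_append_drop i w⟩
    · rw [List.length_take]; omega
    · rw [List.length_drop]; omega

theorem mc_map (σ : X ≃ X) (g : FreeGroup X) (w : List X) :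
    mc (FreeGroup.map σ g) (w.map σ) = mc g w := by
  classical
  induction g using FreeGroup.induction_on generalizing w with
  | C1 =>
    rw [map_one, mc_one, mc_one]
    cases w <;> rfl
  | of x =>
    have e1 : FreeGroup.map σ (FreeGroup.of x) = FreeGroup.of (σ x) := FreeGroup.map.of
    have h1 := mc_of (σ x) (w.map σ)
    have h2 := mc_of x w
    rw [e1, h1, h2]
    have h3 : (w.map σ = [] ∨ w.map σ = [σ x]) ↔ (w = [] ∨ w = [x]) := by
      have h4 : w.map σ = [σ x] ↔ w = [x] := by
        constructor
        · intro h
          have h5 : w.map σ = [x].map σ := h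
          exact List.map_injective_iff.2 σ.injective h5
        · intro h
          rw [h]
          rfl
      rw [List.map_eq_nil_iff, h4]
    by_cases hc : w = [] ∨ w = [x]
    · rw [if_pos hc, if_pos (h3.2 hc)]
    · rw [if_neg hc, if_neg (fun h => hc (h3.1 h))]
  | inv_of x _ =>
    have e1 : FreeGroup.map σ (FreeGroup.of x)⁻¹ = (FreeGroup.of (σ x))⁻¹ := by
      rw [map_inv]
      rfl
    have h1 := mc_of_inv (σ x) (w.map σ)
    have h2 := mc_of_inv x w
    rw [e1, h1, h2]
    have h3 : (∀ y ∈ w.map σ, y = σ x) ↔ (∀ y ∈ w, y = x) := by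
      constructor
      · intro h y hy
        exact σ.injective (h (σ y) (List.mem_map_of_mem hy))
      · intro h y hy
        obtain ⟨z, hz, rfl⟩ := List.mem_map.1 hy
        rw [h z hz]
    by_cases hc : ∀ y ∈ w, y = x
    · rw [if_pos hc, if_pos (h3.2 hc), List.length_map]
    · rw [if_neg hc, if_neg (fun h => hc (h3.1 h))]
  | mul g h hg hh =>
    rw [map_mul, mc_mul, mc_mul, List.length_map]
    apply Finset.sum_congr rfl
    intro i _
    rw [← List.map_take, ← List.map_drop, hg, hh]

end

end Pool.Agent.PDC.MN
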