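import Mathlib

set_option autoImplicit false

/-!
# PDC-MN-SetA: partially well ordered subsets of a bi-ordered group

PLAN pwo_mul: image of the PWO set s ×ˢ t (`Set.IsPWO.prod`, product order) under the monotone map (a, b) ↦ a * b
(`Set.IsPWO.image_of_monotone`, `mul_le_mul'`).
PLAN fin_anti: if A = {a ∈ s | a⁻¹ x ∈ t} is infinite, take an injective sequence in A (`Set.Infinite.natEmbedding`), a strictly
increasing subsequence (s PWO: `Set.IsPWO.exists_monotone_subseq`, injective so strictly monotone); then b_n = a_n⁻¹ x ∈ t is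
strictly decreasing (inverse reverses, right multiplication), contradicting t PWO (well-founded: `Set.IsPWO.isWF`,
`Set.isWF_iff_no_descending_seq`, or a monotone subsequence of b).
PLAN pwo_closure: copy of Mathlib `Set.IsPWO.submonoid_closure` (Mathlib/Algebra/Group/Submonoid/Pointwise.lean, line 295): the proof
uses only `Submonoid.closure_eq_image_prod`, Higman's lemma and `List.SublistForall₂.prod_le_prod'`, no commutativity.
-/

namespace Pool.Agent.PDC.MN

section
variable {G : Type} [Group G] [LinearOrder G] [MulLeftMono G] [MulRightMono G]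

theorem pwo_mul {s t : Set G} (hs : s.IsPWO) (ht : t.IsPWO) :
    {x : G | ∃ a ∈ s, ∃ b ∈ t, x = a * b}.IsPWO := by
  have e : {x : G | ∃ a ∈ s, ∃ b ∈ t, x = a * b} = (fun p : G × G => p.1 * p.2) '' (s ×ˢ t) := by
    ext x
    constructor
    · rintro ⟨a, ha, b, hb, rfl⟩
      exact ⟨(a, b), ⟨ha, hb⟩, rfl⟩
    · rintro ⟨⟨a, b⟩, ⟨ha, hb⟩, rfl⟩
      exact ⟨a, ha, b, hb, rfl⟩
  rw [e]
  refine (hs.prod ht).image_of_monotone ?_
  intro p q hpq
  exact mul_le_mul' hpq.1 hpq.2

theorem fin_anti {s t : Set G} (hs : s.IsPWO) (ht : t.IsPWO) (x : G) :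
    {a : G | a ∈ s ∧ a⁻¹ * x ∈ t}.Finite := by
  by_contra hinf
  have hinf' : {a : G | a ∈ s ∧ a⁻¹ * x ∈ t}.Infinite := hinf
  let f := hinf'.natEmbedding
  have hf : ∀ n, (f n : G) ∈ s := fun n => (f n).2.1
  obtain ⟨g, hg⟩ := hs.exists_monotone_subseq (f := fun n => (f n : G)) hf
  have hinj : Function.Injective ((fun n => (f n : G)) ∘ g) := by
    intro m n hmn
    exact g.injective (f.injective (Subtype.val_injective hmn))
  have hst := hg.strictMono_of_injective hinj
  refine Set.isWF_iff_no_descending_seq.mp ht.isWF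
    (fun n => ((fun n => (f n : G)) (g n))⁻¹ * x) ?_ (fun n => (f (g n)).2.2)
  intro m n hmn
  have h1 : (f (g m) : G) < f (g n) := hst hmn
  have h2 : (f (g n) : G)⁻¹ < (f (g m) : G)⁻¹ := inv_lt_inv_iff.mpr h1
  exact mul_lt_mul_left h2 x

theorem pwo_closure {s : Set G} (hpos : ∀ x ∈ s, 1 ≤ x) (h : s.IsPWO) :
    (Submonoid.closure s : Set G).IsPWO := by
  rw [Submonoid.closure_eq_image_prod]
  refine (h.partiallyWellOrderedOn_sublistForall₂ (· ≤ ·)).image_of_monotone_on ?_
  exact fun l1 _ l2 hl2 h12 => h12.prod_le_prod' fun x hx => hpos x <| hl2 x hx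

end

end Pool.Agent.PDC.MN
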