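import Mathlib
import Pool.Agent.PDC.MN.SetA

set_option autoImplicit false

/-!
# PDC-MN-Defs: Malcev-Neumann series over ℚ
-/

namespace Pool.Agent.PDC.MN

/-- bi-orderable groups, in terms of an invariant positive cone -/
def BiOrd (G : Type) [Group G] : Prop :=
  ∃ P : Set G, (1 : G) ∉ P ∧ (∀ a ∈ P, ∀ b ∈ P, a * b ∈ P) ∧
    (∀ a ∈ P, ∀ g : G, g * a * g⁻¹ ∈ P) ∧ ∀ a : G, a ≠ 1 → a ∈ P ∨ a⁻¹ ∈ P

/-- Series with partially well ordered support. -/
structure Ser (G : Type) [Group G] [LinearOrder G] where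
  c : G → ℚ
  pwo : (Function.support c).IsPWO

section
variable {G : Type} [Group G] [LinearOrder G]

theorem Ser.ext' {f g : Ser G} (h : ∀ x, f.c x = g.c x) : f = g := by
  cases f
  cases g
  simp only [Ser.mk.injEq]
  exact funext h

instance : Zero (Ser G) := ⟨⟨fun _ => 0, by simp⟩⟩

open scoped Classical in
noncomputable instance : One (Ser G) := ⟨⟨fun x => if x = 1 then 1 else 0, by
  refine (Set.finite_singleton (1 : G)).isPWO.mono ?_
  intro x hx
  by_contra h
  exact hx (if_neg h)⟩⟩

instance : Add (Ser G) := ⟨fun f g => ⟨fun x => f.c x + g.c x,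
  (f.pwo.union g.pwo).mono (Function.support_add f.c g.c)⟩⟩

instance : Neg (Ser G) := ⟨fun f => ⟨fun x => -f.c x, by
  have : Function.support (fun x => -f.c x) = Function.support f.c := by
    ext x
    simp
  rw [this]
  exact f.pwo⟩⟩

@[simp] theorem zero_c (x : G) : (0 : Ser G).c x = 0 := rfl
@[simp] theorem add_c (f g : Ser G) (x : G) : (f + g).c x = f.c x + g.c x := rfl
@[simp] theorem neg_c (f : Ser G) (x : G) : (-f).c x = -f.c x := rfl
open scoped Classical in
theorem one_c (x : G) : (1 : Ser G).c x = if x = 1 then 1 else 0 := rfl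

variable [MulLeftMono G] [MulRightMono G]

theorem support_mul_subset (f g : G → ℚ) :
    Function.support (fun x => ∑ᶠ a, f a * g (a⁻¹ * x)) ⊆
      {x : G | ∃ a ∈ Function.support f, ∃ b ∈ Function.support g, x = a * b} := by
  intro x hx
  by_contra h
  apply hx
  have : ∀ a, f a * g (a⁻¹ * x) = 0 := by
    intro a
    by_contra hne
    apply h
    refine ⟨a, ?_, a⁻¹ * x, ?_, by group⟩
    · intro h0
      exact hne (by rw [h0, zero_mul])
    · intro h0
      exact hne (by rw [h0, mul_zero])
  change ∑ᶠ a, f a * g (a⁻¹ * x) = 0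
  rw [finsum_congr this, finsum_zero]

noncomputable instance : Mul (Ser G) := ⟨fun f g => ⟨fun x => ∑ᶠ a, f.c a * g.c (a⁻¹ * x),
  (pwo_mul f.pwo g.pwo).mono (support_mul_subset f.c g.c)⟩⟩

theorem mul_c (f g : Ser G) (x : G) : (f * g).c x = ∑ᶠ a, f.c a * g.c (a⁻¹ * x) := rfl

/-- the product coefficient has finitely many non-zero terms -/
theorem fin_supp (f g : Ser G) (x : G) :
    (Function.support (fun a => f.c a * g.c (a⁻¹ * x))).Finite := by
  refine (fin_anti f.pwo g.pwo x).subset ?_
  intro a ha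
  constructor
  · intro h0
    exact ha (by change f.c a * _ = 0; rw [h0, zero_mul])
  · intro h0
    exact ha (by change _ * g.c _ = 0; rw [h0, mul_zero])

end

end Pool.Agent.PDC.MN
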