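import Mathlib
import Pool.Agent.PDC.MN.Defs

set_option autoImplicit false

/-!
# PDC-MN-Ring: the ring of Malcev-Neumann series

PLAN.  `Ser.ext'` and `mul_c`; all finsums have finite support by `fin_supp` (finite sums: `finsum_add_distrib`,
`mul_finsum`, `finsum_mul`).
one_mul': only a = 1 contributes (`finsum_eq_single`); mul_one': only a = x.
mul_assoc': ((f g) h)(x) = ∑_a ∑_b f(b) g(b⁻¹ a) h(a⁻¹ x), (f (g h))(x) = ∑_b f(b) ∑_c g(c) h(c⁻¹ b⁻¹ x).  Let
 S := {(b, c) | b ∈ supp f, c ∈ supp g, (b c)⁻¹ x ∈ supp h}: finite, because b ∈ {b ∈ supp f | b⁻¹ x ∈ supp g · supp h} is finite (`fin_anti`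
 with `pwo_mul`) and for each b, c ∈ {c ∈ supp g | c⁻¹ (b⁻¹ x) ∈ supp h} is finite.  Both sides are ∑_{(b,c) ∈ S} f(b) g(c) h((b c)⁻¹ x)
 (for the left side: pairs (a, b) ↔ (b, c = b⁻¹ a)).  Convert the finsums to Finset sums over suitable finite sets
 (`finsum_eq_sum_of_support_subset`) and use Finset.sum_comm / Finset.sum_bij; or prove
 ∑ᶠ_a ∑ᶠ_b F a b = ∑ᶠ_b ∑ᶠ_a F a b for F with finite total support (`finsum_curry`, `finsum_comp_equiv`).
-/

namespace Pool.Agent.PDC.MN

section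
variable {G : Type} [Group G] [LinearOrder G] [MulLeftMono G] [MulRightMono G]

theorem one_mul' (f : Ser G) : 1 * f = f := by
  refine Ser.ext' fun x => ?_
  rw [mul_c, finsum_eq_single _ (1 : G)]
  · rw [one_c, if_pos rfl]
    simp
  · intro a ha
    rw [one_c, if_neg ha, zero_mul]

theorem mul_one' (f : Ser G) : f * 1 = f := by
  refine Ser.ext' fun x => ?_
  rw [mul_c, finsum_eq_single _ x]
  · rw [one_c, if_pos (by group)]
    simp
  · intro a ha
    have hne : a⁻¹ * x ≠ 1 := by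
      intro h
      exact ha (inv_mul_eq_one.mp h)
    rw [one_c, if_neg hne, mul_zero]

theorem mul_add' (f g h : Ser G) : f * (g + h) = f * g + f * h := by
  refine Ser.ext' fun x => ?_
  rw [add_c, mul_c, mul_c, mul_c, ← finsum_add_distrib (fin_supp f g x) (fin_supp f h x)]
  refine finsum_congr fun a => ?_
  rw [add_c, mul_add]

theorem add_mul' (f g h : Ser G) : (f + g) * h = f * h + g * h := by
  refine Ser.ext' fun x => ?_
  rw [add_c, mul_c, mul_c, mul_c, ← finsum_add_distrib (fin_supp f h x) (fin_supp g h x)]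
  refine finsum_congr fun a => ?_
  rw [add_c, add_mul]

omit [LinearOrder G] [MulLeftMono G] [MulRightMono G] [Group G] in
private theorem finsum_swap (K : G → G → ℚ)
    (hK : (Function.support (fun p : G × G => K p.1 p.2)).Finite) :
    ∑ᶠ a, ∑ᶠ b, K a b = ∑ᶠ b, ∑ᶠ a, K a b := by
  have h1 := finsum_curry (fun p : G × G => K p.1 p.2) hK
  have hK2 : (Function.support (fun p : G × G => K p.2 p.1)).Finite := by
    refine (hK.image Prod.swap).subset ?_
    rintro ⟨a, b⟩ hab
    exact ⟨(b, a), hab, rfl⟩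
  have h2 := finsum_curry (fun p : G × G => K p.2 p.1) hK2
  have h3 := finsum_comp_equiv (Equiv.prodComm G G) (f := fun p : G × G => K p.1 p.2)
  calc ∑ᶠ a, ∑ᶠ b, K a b = ∑ᶠ p : G × G, K p.1 p.2 := h1.symm
    _ = ∑ᶠ p : G × G, K p.2 p.1 := h3.symm
    _ = ∑ᶠ b, ∑ᶠ a, K a b := h2

private theorem fin_triple (f g h : Ser G) (x : G) :
    (Function.support (fun p : G × G =>
      f.c p.2 * (g.c (p.2⁻¹ * p.1) * h.c (p.1⁻¹ * x)))).Finite := by
  have hA := fin_anti (pwo_mul f.pwo g.pwo) h.pwo x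
  refine (hA.biUnion (t := fun a => (fun b => (a, b)) ''
    {b : G | b ∈ Function.support f.c ∧ b⁻¹ * a ∈ Function.support g.c})
    (fun a _ => (fin_anti f.pwo g.pwo a).image _)).subset ?_
  rintro ⟨a, b⟩ hab
  have hab' : f.c b * (g.c (b⁻¹ * a) * h.c (a⁻¹ * x)) ≠ 0 := hab
  have hf : f.c b ≠ 0 := left_ne_zero_of_mul hab'
  have hgh := right_ne_zero_of_mul hab'
  have hg : g.c (b⁻¹ * a) ≠ 0 := left_ne_zero_of_mul hgh
  have hh : h.c (a⁻¹ * x) ≠ 0 := right_ne_zero_of_mul hgh
  refine Set.mem_biUnion (x := a) ⟨⟨b, hf, b⁻¹ * a, hg, by group⟩, hh⟩ ?_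
  exact ⟨b, ⟨hf, hg⟩, rfl⟩

theorem mul_assoc' (f g h : Ser G) : f * g * h = f * (g * h) := by
  refine Ser.ext' fun x => ?_
  have hL : (f * g * h).c x =
      ∑ᶠ a, ∑ᶠ b, f.c b * (g.c (b⁻¹ * a) * h.c (a⁻¹ * x)) := by
    rw [mul_c]
    refine finsum_congr fun a => ?_
    rw [mul_c, finsum_mul]
    refine finsum_congr fun b => ?_
    rw [mul_assoc]
  have hR : (f * (g * h)).c x =
      ∑ᶠ b, ∑ᶠ a, f.c b * (g.c (b⁻¹ * a) * h.c (a⁻¹ * x)) := by
    rw [mul_c]
    refine finsum_congr fun b => ?_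
    rw [mul_c, mul_finsum,
      ← finsum_comp_equiv (Equiv.mulLeft b⁻¹)]
    refine finsum_congr fun a => ?_
    have e : (b⁻¹ * a)⁻¹ * (b⁻¹ * x) = a⁻¹ * x := by group
    simp only [Equiv.coe_mulLeft]
    rw [e]
  rw [hL, hR]
  exact finsum_swap (fun a b => f.c b * (g.c (b⁻¹ * a) * h.c (a⁻¹ * x))) (fin_triple f g h x)

noncomputable instance : Ring (Ser G) where
  add_assoc f g h := Ser.ext' fun x => by simp [add_assoc]
  zero_add f := Ser.ext' fun x => by simp
  add_zero f := Ser.ext' fun x => by simp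
  add_comm f g := Ser.ext' fun x => by simp [add_comm]
  neg_add_cancel f := Ser.ext' fun x => by simp
  left_distrib := mul_add'
  right_distrib := add_mul'
  zero_mul f := by
    have h := add_mul' (0 : Ser G) 0 f
    have h0 : (0 : Ser G) + 0 = 0 := Ser.ext' fun x => by simp
    rw [h0] at h
    refine Ser.ext' fun x => ?_
    have hx := congrArg (fun F : Ser G => F.c x) h
    simp only [add_c] at hx
    simp only [zero_c]
    linarith
  mul_zero f := by
    have h := mul_add' f 0 (0 : Ser G)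
    have h0 : (0 : Ser G) + 0 = 0 := Ser.ext' fun x => by simp
    rw [h0] at h
    refine Ser.ext' fun x => ?_
    have hx := congrArg (fun F : Ser G => F.c x) h
    simp only [add_c] at hx
    simp only [zero_c]
    linarith
  mul_assoc := mul_assoc'
  one_mul := one_mul'
  mul_one := mul_one'
  nsmul := nsmulRec
  zsmul := zsmulRec

end

end Pool.Agent.PDC.MN
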