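import Mathlib
import Pool.Agent.PDC.MN.Ring

set_option autoImplicit false

/-!
# PDC-MN-Emb: the integral group ring embeds in the ring of Malcev-Neumann series

PLAN.  ι r := the series with coefficients x ↦ ((r.coeff x : ℤ) : ℚ), finite support (PWO: `Set.Finite.isPWO`).  Additive, ι 1 = 1,
multiplicative: (r r').coeff x = ∑_a r(a) r'(a⁻¹ x) (`MonoidAlgebra.coeff_mul_apply_left`, compare with the finsum), or define
ι by `MonoidAlgebra.lift`-like universal property: check multiplicativity on `of` by additivity in both variables
(MonoidAlgebra.induction_linear); single terms: series d_g with coefficient 1 at g, d_g * d_h = d_{g h} (`finsum_eq_single`).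
Injective: coefficients.
-/

namespace Pool.Agent.PDC.MN

section
variable {G : Type} [Group G] [LinearOrder G] [MulLeftMono G] [MulRightMono G]

/-- the series of an element of the group ring -/
private noncomputable def emb (r : MonoidAlgebra ℤ G) : Ser G :=
  ⟨fun x => ((r.coeff x : ℤ) : ℚ), by
    refine (r.coeff.support.finite_toSet).isPWO.mono ?_
    intro x hx
    rw [Function.mem_support] at hx
    rw [Finset.mem_coe, Finsupp.mem_support_iff]
    intro h
    exact hx (by rw [h]; simp)⟩

omit [MulLeftMono G] [MulRightMono G] in
private theorem emb_c (r : MonoidAlgebra ℤ G) (x : G) : (emb r).c x = ((r.coeff x : ℤ) : ℚ) := rfl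

private theorem emb_zero : emb (0 : MonoidAlgebra ℤ G) = 0 := by
  refine Ser.ext' fun x => ?_
  rw [emb_c, zero_c]
  simp

omit [MulLeftMono G] [MulRightMono G] in
private theorem emb_add (r s : MonoidAlgebra ℤ G) : emb (r + s) = emb r + emb s := by
  refine Ser.ext' fun x => ?_
  rw [add_c, emb_c, emb_c, emb_c]
  simp

omit [MulLeftMono G] [MulRightMono G] in
open scoped Classical in
private theorem emb_single (g : G) (n : ℤ) (x : G) :
    (emb (MonoidAlgebra.single g n)).c x = if x = g then (n : ℚ) else 0 := by
  rw [emb_c, MonoidAlgebra.coeff_single, Finsupp.single_apply]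
  by_cases h : x = g
  · rw [if_pos h, if_pos h.symm]
  · rw [if_neg h, if_neg (fun h' => h h'.symm)]; simp

private theorem emb_single_mul (g h : G) (n m : ℤ) :
    emb (MonoidAlgebra.single g n * MonoidAlgebra.single h m)
      = emb (MonoidAlgebra.single g n) * emb (MonoidAlgebra.single h m) := by
  classical
  refine Ser.ext' fun x => ?_
  rw [MonoidAlgebra.single_mul_single, emb_single, mul_c, finsum_eq_single _ g]
  · rw [emb_single, emb_single, if_pos rfl]
    by_cases hx : x = g * h
    · have h1 : g⁻¹ * x = h := by rw [hx]; group
      rw [if_pos hx, if_pos h1]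
      push_cast
      ring
    · have h1 : ¬ g⁻¹ * x = h := by
        intro h2
        apply hx
        rw [← h2]
        group
      rw [if_neg hx, if_neg h1, mul_zero]
  · intro a ha
    rw [emb_single, if_neg ha, zero_mul]

private theorem emb_mul (r s : MonoidAlgebra ℤ G) : emb (r * s) = emb r * emb s := by
  induction r using MonoidAlgebra.induction_linear with
  | zero => rw [zero_mul, emb_zero, zero_mul]
  | add a b ha hb => rw [add_mul, emb_add, emb_add, ha, hb, add_mul]
  | single g n =>
      induction s using MonoidAlgebra.induction_linear with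
      | zero => rw [mul_zero, emb_zero, mul_zero]
      | add a b ha hb => rw [mul_add, emb_add, emb_add, ha, hb, mul_add]
      | single h m => exact emb_single_mul g h n m

private theorem emb_one : emb (1 : MonoidAlgebra ℤ G) = 1 := by
  classical
  refine Ser.ext' fun x => ?_
  rw [MonoidAlgebra.one_def, emb_single, one_c]
  by_cases h : x = 1
  · rw [if_pos h, if_pos h]; simp
  · rw [if_neg h, if_neg h]

theorem ser_embed : ∃ ι : MonoidAlgebra ℤ G →+* Ser G, Function.Injective ι := by
  refine ⟨{ toFun := emb
            map_one' := emb_one
            map_mul' := emb_mul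
            map_zero' := emb_zero
            map_add' := emb_add }, ?_⟩
  intro r s h
  have h1 : emb r = emb s := h
  apply MonoidAlgebra.ext
  ext x
  have h2 := congrArg (fun F : Ser G => F.c x) h1
  simp only [emb_c] at h2
  exact_mod_cast h2

end

end Pool.Agent.PDC.MN
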