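import Mathlib
import Pool.Agent.PDC.MN.Ring

set_option autoImplicit false

/-!
# PDC-MN-Inv: every nonzero Malcev-Neumann series has a right inverse

PLAN.  (1) Let h be a series with support in {x | 1 < x}; there is u with (1 - h) * u = 1.  M := (Submonoid.closure (support h) : Set G),
PWO by `pwo_closure`, hence well-founded for < (`Set.IsPWO.isWF`).  Define u : G → ℚ by well-founded recursion: u x = 0 if x ∉ M;
for x ∈ M, u x = (if x = 1 then 1 else 0) + ∑_{a ∈ Fin set {a ∈ support h | a⁻¹ x ∈ M}} h(a) u(a⁻¹ x), (finite by `fin_anti`;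
a > 1 gives a⁻¹ x < x).  [Alternatively: existence by considering well-founded recursion on the subtype M,
`Set.IsWF`, WellFounded.fix; or on all of G with the relation y < x ∧ y ∈ M ∧ x ∈ M.]  For x ∉ M: x ≠ 1 and no a ∈ support h with
a⁻¹ x ∈ M (M a submonoid), so the same formula u x = δ + ∑ᶠ_a h(a) u(a⁻¹ x) holds for all x: u = 1 + h * u.
(2) f ≠ 0: the support is nonempty and well-founded: least element m, c = f(m) ≠ 0.  Let s be the series with the single
coefficient c⁻¹ at m⁻¹ (support a singleton); f * s has coefficient at x: f(x m) c⁻¹: 1 at x = 1, support in {x | 1 ≤ x}: so f * s = 1 - h with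
support h ⊆ {1 < x}.  (1): f * (s * u) = 1.
-/

namespace Pool.Agent.PDC.MN

section
variable {G : Type} [Group G] [LinearOrder G] [MulLeftMono G] [MulRightMono G]

private theorem geom (h : Ser G) (hpos : ∀ x, h.c x ≠ 0 → 1 < x) :
    ∃ u : Ser G, (1 - h) * u = 1 := by
  classical
  have hM : ((Submonoid.closure (Function.support h.c) : Submonoid G) : Set G).IsPWO :=
    pwo_closure (fun x hx => (hpos x hx).le) h.pwo
  obtain ⟨M, hMdef⟩ : ∃ M : Submonoid G, M = Submonoid.closure (Function.support h.c) := ⟨_, rfl⟩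
  rw [← hMdef] at hM
  have hsub : ∀ a, h.c a ≠ 0 → a ∈ M := by
    intro a ha
    rw [hMdef]
    exact Submonoid.subset_closure ha
  have hr : WellFounded (fun a b : G => a < b ∧ a ∈ (M : Set G) ∧ b ∈ (M : Set G)) :=
    Set.wellFoundedOn_iff.1 hM.isWF
  let F : (x : G) → ((y : G) → (y < x ∧ y ∈ (M : Set G) ∧ x ∈ (M : Set G)) → ℚ) → ℚ :=
    fun x rec => (if x = 1 then 1 else 0) + ∑ᶠ a : G,
      if H : (a⁻¹ * x < x ∧ a⁻¹ * x ∈ (M : Set G) ∧ x ∈ (M : Set G)) then
        h.c a * rec (a⁻¹ * x) H else 0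
  let u : G → ℚ := hr.fix F
  have hu : ∀ x, u x = (if x = 1 then 1 else 0) + ∑ᶠ a : G,
      if (a⁻¹ * x < x ∧ a⁻¹ * x ∈ (M : Set G) ∧ x ∈ (M : Set G)) then
        h.c a * u (a⁻¹ * x) else 0 := by
    intro x
    change hr.fix F x = _
    rw [hr.fix_eq]
    rfl
  have hu0 : ∀ x, x ∉ M → u x = 0 := by
    intro x hx
    rw [hu x]
    have h1 : x ≠ 1 := by
      rintro rfl
      exact hx M.one_mem
    rw [if_neg h1, zero_add]
    have h2 : ∀ a : G, (if (a⁻¹ * x < x ∧ a⁻¹ * x ∈ (M : Set G) ∧ x ∈ (M : Set G)) then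
        h.c a * u (a⁻¹ * x) else 0) = 0 := fun a => if_neg fun H => hx H.2.2
    rw [finsum_congr h2, finsum_zero]
  have hu1 : ∀ x, u x = (if x = 1 then 1 else 0) + ∑ᶠ a : G, h.c a * u (a⁻¹ * x) := by
    intro x
    conv_lhs => rw [hu x]
    congr 1
    refine finsum_congr fun a => ?_
    by_cases ha : h.c a = 0
    · rw [ha, zero_mul, ite_self]
    · by_cases hm : a⁻¹ * x ∈ M
      · have hx : x ∈ M := by
          have := M.mul_mem (hsub a ha) hm
          rwa [mul_inv_cancel_left] at this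
        have hlt : a⁻¹ * x < x := by
          rw [inv_mul_lt_iff_lt_mul]
          exact lt_mul_of_one_lt_left' x (hpos a ha)
        rw [if_pos ⟨hlt, hm, hx⟩]
      · rw [hu0 _ hm, mul_zero, ite_self]
  have hupwo : (Function.support u).IsPWO := by
    refine hM.mono ?_
    intro x hx
    by_contra hxM
    exact hx (hu0 x hxM)
  refine ⟨⟨u, hupwo⟩, ?_⟩
  have e1 : (⟨u, hupwo⟩ : Ser G) = 1 + h * ⟨u, hupwo⟩ := by
    refine Ser.ext' fun x => ?_
    rw [add_c, one_c, mul_c]
    have := hu1 x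
    by_cases hx : x = 1
    · rw [if_pos hx] at this ⊢
      exact this
    · rw [if_neg hx] at this ⊢
      exact this
  rw [sub_mul, one_mul]
  exact sub_eq_of_eq_add e1

theorem exists_right_inv (f : Ser G) (hf : f ≠ 0) : ∃ u : Ser G, f * u = 1 := by
  classical
  have hne : (Function.support f.c).Nonempty := by
    by_contra h
    rw [Set.not_nonempty_iff_eq_empty] at h
    apply hf
    refine Ser.ext' fun x => ?_
    have h1 : x ∉ Function.support f.c := by
      rw [h]
      exact fun h => h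
    rw [Function.notMem_support] at h1
    rw [h1, zero_c]
  obtain ⟨m, hm, hmin⟩ : ∃ m, f.c m ≠ 0 ∧ ∀ x, f.c x ≠ 0 → m ≤ x :=
    ⟨f.pwo.isWF.min hne, f.pwo.isWF.min_mem hne, fun x hx => f.pwo.isWF.min_le hne hx⟩
  let s : Ser G := ⟨fun x => if x = m⁻¹ then (f.c m)⁻¹ else 0, by
    refine (Set.finite_singleton (m⁻¹ : G)).isPWO.mono ?_
    intro x hx
    by_contra h
    exact hx (if_neg h)⟩
  have hs : ∀ x, s.c x = if x = m⁻¹ then (f.c m)⁻¹ else 0 := fun x => rfl
  have hfs : ∀ x, (f * s).c x = f.c (x * m) * (f.c m)⁻¹ := by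
    intro x
    rw [mul_c]
    rw [finsum_eq_single _ (x * m)]
    · rw [hs, if_pos (by group)]
    · intro a ha
      rw [hs, if_neg, mul_zero]
      intro h
      apply ha
      have : a = x * (a⁻¹ * x)⁻¹ := by group
      rw [this, h]
      group
  obtain ⟨u, hu⟩ := geom (1 - f * s) (by
    intro x hx
    have h1 : (1 - f * s).c x = (1 : Ser G).c x - (f * s).c x := by
      rw [sub_eq_add_neg, add_c, neg_c]
      ring
    rw [h1, hfs, one_c] at hx
    have hx1 : x ≠ 1 := by
      rintro rfl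
      apply hx
      rw [if_pos rfl, one_mul, mul_inv_cancel₀ hm, sub_self]
    rw [if_neg hx1, zero_sub] at hx
    have h2 : f.c (x * m) ≠ 0 := by
      intro h0
      apply hx
      rw [h0, zero_mul, neg_zero]
    have h3 : 1 ≤ x := (le_mul_iff_one_le_left' m).1 (hmin _ h2)
    exact lt_of_le_of_ne h3 (Ne.symm hx1))
  rw [sub_sub_cancel, mul_assoc] at hu
  exact ⟨s * u, hu⟩

end

end Pool.Agent.PDC.MN
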