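import Mathlib
import Pool.Agent.PDC.MN.MagA

set_option autoImplicit false

/-!
# PDC-MN-MagB: injectivity of the Magnus map

PLAN.  Syllables.  For x : X, e : ℤ: mc ((of x)^e) w = 0 unless all letters of w are x, mc ((of x)^e) [] = 1, mc ((of x)^e) [x] = e
 (induction on e; mc_mul).  For an alternating list s = [(x1,e1),...,(xk,ek)] (consecutive x's different, e_i ≠ 0) with product
 g = ∏ (of x_i)^{e_i}: for every word w without two equal consecutive letters (List.IsChain (· ≠ ·) w):
   |w| > k → mc g w = 0;   |w| = k → mc g w = if w = [x1..xk] then ∏ e_i else 0     (only the value at [x1..xk] and the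
   vanishing for |w| > k, and for |w| = k: mc g w ≠ 0 at w = letters, are needed).
 Induction on s: g = (of x)^e * g', mc g w = ∑_i mc((of x)^e)(w.take i) * mc g' (w.drop i): w.take i must consist of letters x, without
 repetition, so i ≤ 1 (for i ≥ 2 the first two letters are equal): terms i = 0: mc g' w = 0 if |w| ≥ k (> k - 1); i = 1: e * mc g' (w.tail)
 if w starts with x.
 Every g ≠ 1 is such a product with k ≥ 1: from the reduced word `FreeGroup.toWord` group equal letters, or use
 `freeGroupEquivCoprodI` and `Monoid.CoprodI.Word` (FreeGroup Unit ≃ ℤ), or prove by `FreeGroup.induction_on`-like induction that every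
 g is the product of an alternating list (multiply on the left by (of x)^{±1}: merge with the first syllable, drop it when the
 exponent becomes 0).
-/

namespace Pool.Agent.PDC.MN

section
variable {X : Type}

/-- the coefficients of `g` vanish at all words with a letter different from `x` -/
private def MBonly (x : X) (g : FreeGroup X) : Prop := ∀ w : List X, (∃ y ∈ w, y ≠ x) → mc g w = 0

private lemma mb_only_mul (x : X) {g h : FreeGroup X} (hg : MBonly x g) (hh : MBonly x h) :
    MBonly x (g * h) := by
  rintro w ⟨y, hy, hne⟩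
  rw [mc_mul]
  apply Finset.sum_eq_zero
  intro i _
  rw [← List.take_append_drop i w, List.mem_append] at hy
  rcases hy with hy | hy
  · rw [hg _ ⟨y, hy, hne⟩, zero_mul]
  · rw [hh _ ⟨y, hy, hne⟩, mul_zero]

private lemma mb_only_one (x : X) : MBonly x (1 : FreeGroup X) := by
  rintro w ⟨y, hy, -⟩
  rw [mc_one]
  cases w with
  | nil => simp at hy
  | cons a w => simp

private lemma mb_only_of (x : X) : MBonly x (FreeGroup.of x) := by
  classical
  rintro w ⟨y, hy, hne⟩
  rw [mc_of, if_neg]
  rintro (rfl | rfl)
  · simp at hy
  · exact hne (by simpa using hy)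

private lemma mb_only_of_inv (x : X) : MBonly x (FreeGroup.of x)⁻¹ := by
  classical
  rintro w ⟨y, hy, hne⟩
  rw [mc_of_inv, if_neg]
  intro h
  exact hne (h y hy)

private lemma mb_only_pow (x : X) {g : FreeGroup X} (hg : MBonly x g) (n : ℕ) :
    MBonly x (g ^ n) := by
  induction n with
  | zero => rw [pow_zero]; exact mb_only_one x
  | succ n ih => rw [pow_succ]; exact mb_only_mul x ih hg

private lemma mb_only_zpow (x : X) (e : ℤ) : MBonly x (FreeGroup.of x ^ e) := by
  rcases Int.eq_nat_or_neg e with ⟨n, rfl | rfl⟩
  · rw [zpow_natCast]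
    exact mb_only_pow x (mb_only_of x) n
  · rw [zpow_neg, zpow_natCast, ← inv_pow]
    exact mb_only_pow x (mb_only_of_inv x) n

private lemma mb_single_mul (y : X) (g h : FreeGroup X) : mc (g * h) [y] = mc g [y] + mc h [y] := by
  rw [mc_mul]
  simp only [List.length_cons, List.length_nil, Finset.sum_range_succ, Finset.range_zero,
    Finset.sum_empty, List.take_zero, List.drop_zero, zero_add, List.take_succ_cons,
    List.drop_succ_cons, mc_nil]
  ring

private lemma mb_single_zpow (y : X) (g : FreeGroup X) (e : ℤ) :
    mc (g ^ e) [y] = e * mc g [y] := by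
  have h1 : mc (1 : FreeGroup X) [y] = 0 := by rw [mc_one]; simp
  let φ : FreeGroup X →* Multiplicative ℤ :=
    { toFun := fun g => Multiplicative.ofAdd (mc g [y])
      map_one' := by rw [h1]; rfl
      map_mul' := fun a b => by rw [mb_single_mul]; rfl }
  have h2 : φ (g ^ e) = φ g ^ e := map_zpow φ g e
  have h3 : mc (g ^ e) [y] = e • mc g [y] := h2
  rw [h3, smul_eq_mul]

private lemma mb_step (x y : X) (e : ℤ) (g : FreeGroup X) (w : List X)
    (hw : (y :: w).IsChain (· ≠ ·)) :
    mc (FreeGroup.of x ^ e * g) (y :: w)
      = mc g (y :: w) + mc (FreeGroup.of x ^ e) [y] * mc g w := by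
  rw [mc_mul, List.length_cons, Finset.sum_range_succ', add_comm]
  congr 1
  · rw [List.take_zero, List.drop_zero, mc_nil, one_mul]
  · rw [Finset.sum_range_succ']
    simp only [List.take_succ_cons, List.drop_succ_cons, List.take_zero, List.drop_zero]
    rw [Finset.sum_eq_zero, zero_add]
    intro i hi
    rw [Finset.mem_range] at hi
    cases w with
    | nil => simp at hi
    | cons z w =>
      rw [List.take_succ_cons]
      have hyz : y ≠ z := by
        rw [List.isChain_cons_cons] at hw
        exact hw.1
      have : ∃ u ∈ y :: z :: w.take i, u ≠ x := by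
        by_cases h : y = x
        · exact ⟨z, by simp, fun h' => hyz (h.trans h'.symm)⟩
        · exact ⟨y, by simp, h⟩
      rw [mb_only_zpow x e _ this, zero_mul]

/-- the product of a list of syllables -/
private def mbprod (s : List (X × ℤ)) : FreeGroup X := (s.map (fun a => FreeGroup.of a.1 ^ a.2)).prod

private lemma mb_long (s : List (X × ℤ)) : ∀ w : List X, w.IsChain (· ≠ ·) →
    s.length < w.length → mc (mbprod s) w = 0 := by
  induction s with
  | nil =>
    intro w _ hl
    rw [mbprod, List.map_nil, List.prod_nil, mc_one]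
    cases w with
    | nil => simp at hl
    | cons a w => simp
  | cons a s ih =>
    intro w hw hl
    cases w with
    | nil => simp at hl
    | cons y w =>
      have hl' : s.length < w.length := by simpa using hl
      have h1 : mbprod (a :: s) = FreeGroup.of a.1 ^ a.2 * mbprod s := by
        rw [mbprod, List.map_cons, List.prod_cons]
        rfl
      rw [h1, mb_step _ _ _ _ _ hw, ih (y :: w) hw (by rw [List.length_cons]; omega),
        ih w hw.tail hl', mul_zero, add_zero]

private lemma mb_top (s : List (X × ℤ)) : (s.map Prod.fst).IsChain (· ≠ ·) →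
    mc (mbprod s) (s.map Prod.fst) = (s.map Prod.snd).prod := by
  induction s with
  | nil =>
    intro _
    rw [mbprod, List.map_nil, List.map_nil, List.map_nil, List.prod_nil, List.prod_nil, mc_one]
    simp
  | cons a s ih =>
    intro hw
    have h1 : mbprod (a :: s) = FreeGroup.of a.1 ^ a.2 * mbprod s := by
      rw [mbprod, List.map_cons, List.prod_cons]
      rfl
    have h2 : mc (FreeGroup.of a.1) [a.1] = 1 := by
      rw [mc_of, if_pos (Or.inr rfl)]
    rw [List.map_cons] at hw ⊢
    rw [h1, mb_step _ _ _ _ _ hw, mb_long s _ hw (by simp), ih hw.tail, mb_single_zpow, h2,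
      List.map_cons, List.prod_cons]
    ring

/-- `g` is an alternating product of syllables -/
private def MBQ (g : FreeGroup X) : Prop :=
  ∃ s : List (X × ℤ), (s.map Prod.fst).IsChain (· ≠ ·) ∧ (∀ a ∈ s, a.2 ≠ 0) ∧ mbprod s = g

private lemma mbq_syl (x : X) (e : ℤ) (g : FreeGroup X) (hg : MBQ g) :
    MBQ (FreeGroup.of x ^ e * g) := by
  classical
  obtain ⟨s, hs, hne, rfl⟩ := hg
  by_cases he : e = 0
  · rw [he, zpow_zero, one_mul]
    exact ⟨s, hs, hne, rfl⟩
  cases s with
  | nil =>
    refine ⟨[(x, e)], by simp, ?_, ?_⟩
    · intro a ha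
      rw [List.mem_singleton] at ha
      rw [ha]
      exact he
    · simp [mbprod]
  | cons a s =>
    by_cases hx : a.1 = x
    · by_cases h0 : e + a.2 = 0
      · refine ⟨s, ?_, fun b hb => hne b (List.mem_cons_of_mem _ hb), ?_⟩
        · rw [List.map_cons] at hs
          exact hs.tail
        · rw [mbprod, mbprod, List.map_cons, List.prod_cons, ← mul_assoc, hx, ← zpow_add, h0,
            zpow_zero, one_mul]
      · refine ⟨(x, e + a.2) :: s, ?_, ?_, ?_⟩
        · rw [List.map_cons] at hs ⊢
          rw [← hx]
          exact hs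
        · intro b hb
          rcases List.mem_cons.mp hb with rfl | hb
          · exact h0
          · exact hne b (List.mem_cons_of_mem _ hb)
        · rw [mbprod, mbprod, List.map_cons, List.prod_cons, List.map_cons, List.prod_cons,
            ← mul_assoc, hx, ← zpow_add]
    · refine ⟨(x, e) :: a :: s, ?_, ?_, ?_⟩
      · rw [List.map_cons, List.map_cons, List.isChain_cons_cons]
        exact ⟨fun h => hx h.symm, hs⟩
      · intro b hb
        rcases List.mem_cons.mp hb with rfl | hb
        · exact he
        · exact hne b hb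
      · rw [mbprod, List.map_cons, List.prod_cons]
        rfl

private lemma mbq_all (g : FreeGroup X) : MBQ g := by
  have key : ∀ h, MBQ h → MBQ (g * h) := by
    refine FreeGroup.induction_on (C := fun g => ∀ h, MBQ h → MBQ (g * h)) g ?_ ?_ ?_ ?_
    · intro h hh
      rwa [one_mul]
    · intro x h hh
      have := mbq_syl x 1 h hh
      rwa [zpow_one] at this
    · intro x _ h hh
      have := mbq_syl x (-1) h hh
      rwa [zpow_neg, zpow_one] at this
    · intro a b ha hb h hh
      rw [mul_assoc]
      exact ha _ (hb _ hh)
  have h1 : MBQ (1 : FreeGroup X) := ⟨[], by simp, by simp, by simp [mbprod]⟩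
  have := key 1 h1
  rwa [mul_one] at this

end

theorem mc_inj {X : Type} (g : FreeGroup X) (hg : g ≠ 1) : ∃ w : List X, w ≠ [] ∧ mc g w ≠ 0 := by
  obtain ⟨s, hs, hne, rfl⟩ := mbq_all g
  refine ⟨s.map Prod.fst, ?_, ?_⟩
  · intro h
    rw [List.map_eq_nil_iff] at h
    subst h
    exact hg (by simp [mbprod])
  · rw [mb_top s hs]
    intro h
    rw [List.prod_eq_zero_iff, List.mem_map] at h
    obtain ⟨a, ha, h0⟩ := h
    exact hne a ha h0

end Pool.Agent.PDC.MN
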