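import Mathlib
import Pool.Agent.PDC.MN.MagB

set_option autoImplicit false

/-!
# PDC-MN-MagC: the Magnus order: an invariant positive cone on a free group, natural for order automorphisms

Order on words: `sl w v` := w.length < v.length ∨ (w.length = v.length ∧ w < v) (lexicographic order on List X, strict linear
order for X linearly ordered; only needed between words of equal length).
P := {g | ∃ w, w ≠ [] ∧ 0 < mc g w ∧ ∀ v, v ≠ [] → sl v w → mc g v = 0}.

PLAN.  In all computations: mc g [] = 1 (`mc_nil`) and `mc_mul` : for w ≠ [], mc (g h) w = mc g w + mc h w + (sum over 0 < i < |w|).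
 * 1 ∉ P: `mc_one`.
 * min: if mc g w ≠ 0 for some w ≠ [], there is a least such w for sl: minimal length n ≥ 1, then the minimum of the finite nonempty set
   {w | |w| = n, mc g w ≠ 0} (`mc_fin`).  So for g ≠ 1 (`mc_inj`) there is w ≠ [] with mc g w ≠ 0 and mc g v = 0 for all v ≠ [] with sl v w.
 * mul: a, b ∈ P with minimal words w1, w2; w := the sl-smaller one (or both equal).  For v ≠ [] with sl v w all terms of
   mc (a b) v vanish (the pieces u, u' of a proper splitting of v are nonempty and shorter than v, |v| ≤ |w| ≤ |w1|, |w2|); at w: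
   mc (a b) w = mc a w + mc b w > 0.
 * conj: a ∈ P with minimal word w, n = |w|; a' = g a g⁻¹, a' g = g a.  Claim: mc a' v = mc a v for all v with |v| ≤ n: strong induction
   on |v|: (v = [] both 1) compare mc (a' g) v = mc (g a) v: terms with both pieces proper involve mc a' u, mc a u' with nonempty
   u, u' shorter than v: zero (|u| < n: mc a u = 0, and mc a' u = mc a u by induction).
   So mc a' v + mc g v = mc g v + mc a v.
 * total: g ≠ 1, w minimal.  mc g w > 0: g ∈ P.  mc g w < 0: mc g⁻¹ v = - mc g v for all nonempty v with |v| ≤ |w| (from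
   mc (g g⁻¹) v = 0 and the same argument, strong induction), so g⁻¹ ∈ P.
 * naturality: σ strictly monotone bijection: sl (v.map σ) (w.map σ) ↔ sl v w; mc (map σ g) (w.map σ) = mc g w (`mc_map`); every word is
   a (v.map σ).
-/

namespace Pool.Agent.PDC.MN

section Order

variable {X : Type} [LinearOrder X]

/-- lexicographic order (used between words of equal length) -/
private def lx : List X → List X → Prop
  | [], _ => False
  | _ :: _, [] => False
  | a :: as, b :: bs => a < b ∨ (a = b ∧ lx as bs)

private lemma lx_cons (a b : X) (as bs : List X) :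
    lx (a :: as) (b :: bs) ↔ a < b ∨ (a = b ∧ lx as bs) := Iff.rfl

private lemma lx_irrefl (w : List X) : ¬ lx w w := by
  induction w with
  | nil => exact fun h => h
  | cons a w ih =>
    rw [lx_cons]
    rintro (h | ⟨_, h⟩)
    · exact lt_irrefl _ h
    · exact ih h

private lemma lx_trans : ∀ (u v w : List X), lx u v → lx v w → lx u w := by
  intro u
  induction u with
  | nil => intro v w h; exact h.elim
  | cons a u ih =>
    intro v w h1 h2
    cases v with
    | nil => exact h1.elim
    | cons b v =>
      cases w with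
      | nil => exact h2.elim
      | cons c w =>
        rw [lx_cons] at h1 h2 ⊢
        rcases h1 with h1 | ⟨h1, h1'⟩
        · rcases h2 with h2 | ⟨h2, _⟩
          · exact Or.inl (lt_trans h1 h2)
          · exact Or.inl (h2 ▸ h1)
        · rcases h2 with h2 | ⟨h2, h2'⟩
          · exact Or.inl (h1 ▸ h2)
          · exact Or.inr ⟨h1.trans h2, ih v w h1' h2'⟩

private lemma lx_tri : ∀ (u v : List X), u.length = v.length → lx u v ∨ u = v ∨ lx v u := by
  intro u
  induction u with
  | nil =>
    intro v h
    cases v with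
    | nil => exact Or.inr (Or.inl rfl)
    | cons b v => simp at h
  | cons a u ih =>
    intro v h
    cases v with
    | nil => simp at h
    | cons b v =>
      have h' : u.length = v.length := by simpa using h
      rw [lx_cons, lx_cons]
      rcases lt_trichotomy a b with h1 | h1 | h1
      · exact Or.inl (Or.inl h1)
      · subst h1
        rcases ih v h' with h2 | h2 | h2
        · exact Or.inl (Or.inr ⟨rfl, h2⟩)
        · exact Or.inr (Or.inl (by rw [h2]))
        · exact Or.inr (Or.inr (Or.inr ⟨rfl, h2⟩))
      · exact Or.inr (Or.inr (Or.inl h1))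

private lemma lx_map (σ : X ≃ X) (hσ : ∀ x y, x < y → σ x < σ y) :
    ∀ (u v : List X), lx (u.map σ) (v.map σ) → lx u v := by
  have hσ' : ∀ x y, σ x < σ y → x < y := by
    intro x y h
    rcases lt_trichotomy x y with h1 | h1 | h1
    · exact h1
    · subst h1; exact absurd h (lt_irrefl _)
    · exact absurd (lt_trans h (hσ y x h1)) (lt_irrefl _)
  intro u
  induction u with
  | nil => intro v h; exact h
  | cons a u ih =>
    intro v h
    cases v with
    | nil => exact h
    | cons b v =>
      rw [List.map_cons, List.map_cons, lx_cons] at h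
      rw [lx_cons]
      rcases h with h | ⟨h, h'⟩
      · exact Or.inl (hσ' _ _ h)
      · exact Or.inr ⟨σ.injective h, ih v h'⟩

/-- length, then lexicographic -/
private def sl (w v : List X) : Prop := w.length < v.length ∨ (w.length = v.length ∧ lx w v)

private lemma sl_trans {u v w : List X} (h1 : sl u v) (h2 : sl v w) : sl u w := by
  rcases h1 with h1 | ⟨h1, h1'⟩ <;> rcases h2 with h2 | ⟨h2, h2'⟩
  · exact Or.inl (lt_trans h1 h2)
  · exact Or.inl (by omega)
  · exact Or.inl (by omega)
  · exact Or.inr ⟨h1.trans h2, lx_trans _ _ _ h1' h2'⟩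

private lemma sl_tri (u v : List X) : sl u v ∨ u = v ∨ sl v u := by
  rcases lt_trichotomy u.length v.length with h | h | h
  · exact Or.inl (Or.inl h)
  · rcases lx_tri u v h with h1 | h1 | h1
    · exact Or.inl (Or.inr ⟨h, h1⟩)
    · exact Or.inr (Or.inl h1)
    · exact Or.inr (Or.inr (Or.inr ⟨h.symm, h1⟩))
  · exact Or.inr (Or.inr (Or.inl h))

private lemma sl_le {u v : List X} (h : sl u v) : u.length ≤ v.length := by
  rcases h with h | ⟨h, _⟩ <;> omega

private lemma fin_min (n : ℕ) (s : Finset (List X)) (hs : s.Nonempty) :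
    (∀ u ∈ s, u.length = n) → ∃ m ∈ s, ∀ u ∈ s, u = m ∨ lx m u := by
  induction hs using Finset.Nonempty.cons_induction with
  | singleton a =>
    intro _
    exact ⟨a, by simp, fun u hu => Or.inl (by simpa using hu)⟩
  | cons a s ha hs ih =>
    intro hlen
    obtain ⟨m, hm, hmin⟩ := ih fun u hu => hlen u (Finset.mem_cons_of_mem hu)
    have e1 : a.length = m.length := by
      rw [hlen a (Finset.mem_cons_self _ _), hlen m (Finset.mem_cons_of_mem hm)]
    rcases lx_tri a m e1 with h | h | h
    · refine ⟨a, Finset.mem_cons_self _ _, fun u hu => ?_⟩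
      rcases Finset.mem_cons.mp hu with rfl | hu
      · exact Or.inl rfl
      · rcases hmin u hu with h1 | h1
        · right; rw [h1]; exact h
        · exact Or.inr (lx_trans _ _ _ h h1)
    · refine ⟨m, Finset.mem_cons_of_mem hm, fun u hu => ?_⟩
      rcases Finset.mem_cons.mp hu with rfl | hu
      · exact Or.inl h
      · exact hmin u hu
    · refine ⟨m, Finset.mem_cons_of_mem hm, fun u hu => ?_⟩
      rcases Finset.mem_cons.mp hu with rfl | hu
      · exact Or.inr h
      · exact hmin u hu

end Order

section Mid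

variable {X : Type}

private lemma mc_split (g h : FreeGroup X) (w : List X) (hw : w ≠ [])
    (hmid : ∀ i, 1 ≤ i → i < w.length → mc g (w.take i) = 0 ∨ mc h (w.drop i) = 0) :
    mc (g * h) w = mc g w + mc h w := by
  have hpos : 0 < w.length := List.length_pos_iff.mpr hw
  rw [mc_mul, Finset.sum_range_succ, Finset.range_eq_Ico, Finset.sum_eq_sum_Ico_succ_bot hpos]
  have h1 : ∑ i ∈ Finset.Ico (0 + 1) w.length, mc g (w.take i) * mc h (w.drop i) = 0 := by
    apply Finset.sum_eq_zero
    intro i hi
    rw [Finset.mem_Ico] at hi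
    rcases hmid i (by omega) hi.2 with h | h
    · rw [h, zero_mul]
    · rw [h, mul_zero]
  rw [h1, List.take_zero, List.drop_zero, List.take_length, List.drop_length, mc_nil, mc_nil]
  ring

end Mid

private lemma take_info {X : Type} (w : List X) (i : ℕ) (h1 : 1 ≤ i) (h2 : i < w.length) :
    w.take i ≠ [] ∧ (w.take i).length < w.length ∧ w.drop i ≠ [] ∧
      (w.drop i).length < w.length := by
  refine ⟨?_, ?_, ?_, ?_⟩
  · rw [← List.length_pos_iff, List.length_take]; omega
  · rw [List.length_take]; omega
  · rw [← List.length_pos_iff, List.length_drop]; omega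
  · rw [List.length_drop]; omega

private lemma exists_lead {X : Type} [LinearOrder X] (g : FreeGroup X) (hg : g ≠ 1) :
    ∃ w : List X, w ≠ [] ∧ mc g w ≠ 0 ∧ ∀ v, v ≠ [] → sl v w → mc g v = 0 := by
  classical
  obtain ⟨w₀, hw₀, hw₀'⟩ := mc_inj g hg
  have hex : ∃ n, ∃ w : List X, w.length = n ∧ w ≠ [] ∧ mc g w ≠ 0 := ⟨_, w₀, rfl, hw₀, hw₀'⟩
  obtain ⟨w₁, hw₁, hw₁', hw₁''⟩ := Nat.find_spec hex
  have hfin := mc_fin g (Nat.find hex)
  obtain ⟨m, hm, hmin⟩ := fin_min (Nat.find hex) hfin.toFinset
    ⟨w₁, by rw [Set.Finite.mem_toFinset]; exact ⟨hw₁, hw₁''⟩⟩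
    (fun u hu => by rw [Set.Finite.mem_toFinset] at hu; exact hu.1)
  rw [Set.Finite.mem_toFinset] at hm
  have hmne : m ≠ [] := by
    intro h
    have h1 := hm.1
    rw [h, ← hw₁] at h1
    exact hw₁' (List.length_eq_zero_iff.mp h1.symm)
  refine ⟨m, hmne, hm.2, fun v hv hsl => ?_⟩
  by_contra hne
  rcases hsl with h | ⟨h, h'⟩
  · exact Nat.find_min hex (lt_of_lt_of_eq h hm.1) ⟨v, rfl, hv, hne⟩
  · have hv' : v ∈ hfin.toFinset := by
      rw [Set.Finite.mem_toFinset]
      exact ⟨h.trans hm.1, hne⟩
    rcases hmin v hv' with h1 | h1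
    · rw [h1] at h'; exact lx_irrefl _ h'
    · exact lx_irrefl _ (lx_trans _ _ _ h' h1)

theorem free_cone (X : Type) [LinearOrder X] :
    ∃ P : Set (FreeGroup X), (1 : FreeGroup X) ∉ P ∧ (∀ a ∈ P, ∀ b ∈ P, a * b ∈ P) ∧
      (∀ a ∈ P, ∀ g : FreeGroup X, g * a * g⁻¹ ∈ P) ∧ (∀ a : FreeGroup X, a ≠ 1 → a ∈ P ∨ a⁻¹ ∈ P) ∧
      ∀ σ : X ≃ X, (∀ x y, x < y → σ x < σ y) → ∀ g ∈ P, FreeGroup.map σ g ∈ P := by
  refine ⟨{g | ∃ w : List X, w ≠ [] ∧ 0 < mc g w ∧ ∀ v, v ≠ [] → sl v w → mc g v = 0},
    ?_, ?_, ?_, ?_, ?_⟩
  · rintro ⟨w, hw, h, _⟩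
    rw [mc_one] at h
    have : w.isEmpty = false := by
      cases w with
      | nil => exact absurd rfl hw
      | cons a w => rfl
    rw [this] at h
    simp at h
  · rintro a ⟨wa, ha, hpa, hza⟩ b ⟨wb, hb, hpb, hzb⟩
    -- mid terms vanish for words not longer than both
    have key : ∀ v : List X, v ≠ [] → v.length ≤ wa.length →
        mc (a * b) v = mc a v + mc b v := by
      intro v hv hl
      apply mc_split a b v hv
      intro i h1 h2
      obtain ⟨t1, t2, t3, t4⟩ := take_info v i h1 h2
      left
      exact hza _ t1 (Or.inl (lt_of_lt_of_le t2 hl))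
    rcases sl_tri wa wb with h | h | h
    · refine ⟨wa, ha, ?_, ?_⟩
      · rw [key wa ha le_rfl, hzb wa ha h, add_zero]; exact hpa
      · intro v hv hs
        rw [key v hv (sl_le hs), hza v hv hs, hzb v hv (sl_trans hs h), add_zero]
    · subst h
      refine ⟨wa, ha, ?_, ?_⟩
      · rw [key wa ha le_rfl]; exact add_pos hpa hpb
      · intro v hv hs
        rw [key v hv (sl_le hs), hza v hv hs, hzb v hv hs, add_zero]
    · refine ⟨wb, hb, ?_, ?_⟩
      · rw [key wb hb (sl_le h), hza wb hb h, zero_add]; exact hpb
      · intro v hv hs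
        rw [key v hv (le_trans (sl_le hs) (sl_le h)), hza v hv (sl_trans hs h), hzb v hv hs,
          add_zero]
  · rintro a ⟨w, hw, hp, hz⟩ g
    have claim : ∀ n, ∀ v : List X, v.length = n → v.length ≤ w.length →
        mc (g * a * g⁻¹) v = mc a v := by
      intro n
      induction n using Nat.strong_induction_on with
      | _ n ih =>
        intro v hvn hvw
        by_cases hv : v = []
        · rw [hv, mc_nil, mc_nil]
        have e0 : g * a * g⁻¹ * g = g * a := by group
        have e1 : mc (g * a * g⁻¹ * g) v = mc (g * a * g⁻¹) v + mc g v := by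
          apply mc_split _ _ v hv
          intro i h1 h2
          obtain ⟨t1, t2, t3, t4⟩ := take_info v i h1 h2
          left
          rw [ih _ (by omega) _ rfl (by omega)]
          exact hz _ t1 (Or.inl (lt_of_lt_of_le t2 hvw))
        have e2 : mc (g * a) v = mc g v + mc a v := by
          apply mc_split _ _ v hv
          intro i h1 h2
          obtain ⟨t1, t2, t3, t4⟩ := take_info v i h1 h2
          right
          exact hz _ t3 (Or.inl (lt_of_lt_of_le t4 hvw))
        rw [e0, e2] at e1
        linarith
    refine ⟨w, hw, ?_, ?_⟩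
    · rw [claim _ w rfl le_rfl]; exact hp
    · intro v hv hs
      rw [claim _ v rfl (sl_le hs)]
      exact hz v hv hs
  · intro g hg
    obtain ⟨w, hw, hne, hz⟩ := exists_lead g hg
    rcases lt_or_gt_of_ne hne with h | h
    · right
      have claim : ∀ v : List X, v ≠ [] → v.length ≤ w.length → mc g⁻¹ v = -mc g v := by
        intro v hv hvw
        have e1 : mc (g * g⁻¹) v = mc g v + mc g⁻¹ v := by
          apply mc_split _ _ v hv
          intro i h1 h2
          obtain ⟨t1, t2, t3, t4⟩ := take_info v i h1 h2
          left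
          exact hz _ t1 (Or.inl (lt_of_lt_of_le t2 hvw))
        rw [mul_inv_cancel, mc_one] at e1
        have : v.isEmpty = false := by
          cases v with
          | nil => exact absurd rfl hv
          | cons a v => rfl
        rw [this] at e1
        simp only [Bool.false_eq_true, if_false] at e1
        linarith
      refine ⟨w, hw, ?_, ?_⟩
      · rw [claim w hw le_rfl]; linarith
      · intro v hv hs
        rw [claim v hv (sl_le hs), hz v hv hs, neg_zero]
    · left
      exact ⟨w, hw, h, hz⟩
  · rintro σ hσ g ⟨w, hw, hp, hz⟩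
    refine ⟨w.map σ, ?_, ?_, ?_⟩
    · intro h; exact hw (List.map_eq_nil_iff.mp h)
    · rw [mc_map]; exact hp
    · intro v hv hs
      have e1 : v = (v.map σ.symm).map σ := by
        rw [List.map_map]
        simp
      have hv' : v.map σ.symm ≠ [] := by
        intro h; exact hv (List.map_eq_nil_iff.mp h)
      rw [e1, mc_map]
      apply hz _ hv'
      rw [e1] at hs
      rcases hs with h | ⟨h, h'⟩
      · left; simpa using h
      · right
        refine ⟨by simpa using h, lx_map σ hσ _ _ h'⟩

end Pool.Agent.PDC.MN
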