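import Mathlib
import Pool.Agent.PDC.MN.Inv
import Pool.Agent.PDC.MN.Emb

set_option autoImplicit false

/-!
# PDC-MN-Main: the integral group ring of a bi-orderable group embeds in a division ring

PLAN.  From the cone P: LinearOrder G with a ≤ b ↔ a = b ∨ a⁻¹ * b ∈ P (decidability classical: `LinearOrder.mk` or
`Classical.decRel`; antisymmetry: a⁻¹ b and b⁻¹ a in P give 1 ∈ P; total).  MulLeftMono clear; MulRightMono:
(a c)⁻¹ (b c) = c⁻¹ (a⁻¹ b) c ∈ P.  Ser G is a nontrivial ring (1 ≠ 0 by the coefficient at 1) in which every nonzero element has a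
right inverse (`exists_right_inv`), so every nonzero element is a unit (f u = 1, u ≠ 0, u v = 1, then f = f u v = v, u f = 1);
`DivisionRing.ofIsUnitOrEqZero`.  `ser_embed`.
-/

namespace Pool.Agent.PDC.MN

theorem division_of_biord {G : Type} [Group G] (h : BiOrd G) :
    ∃ (D : Type) (_ : DivisionRing D) (f : MonoidAlgebra ℤ G →+* D), Function.Injective f := by
  classical
  obtain ⟨P, h1, hmul, hconj, htot⟩ := h
  let lo : LinearOrder G :=
    { le := fun a b => a = b ∨ a⁻¹ * b ∈ P
      le_refl := fun a => Or.inl rfl
      le_trans := by
        rintro a b c (rfl | hab) (rfl | hbc)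
        · exact Or.inl rfl
        · exact Or.inr hbc
        · exact Or.inr hab
        · right
          have := hmul _ hab _ hbc
          have he : a⁻¹ * b * (b⁻¹ * c) = a⁻¹ * c := by group
          rwa [he] at this
      le_antisymm := by
        rintro a b (rfl | hab) (hba | hba)
        · rfl
        · rfl
        · exact hba.symm
        · exfalso
          have := hmul _ hab _ hba
          have he : a⁻¹ * b * (b⁻¹ * a) = 1 := by group
          rw [he] at this
          exact h1 this
      le_total := by
        intro a b
        by_cases hab : a = b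
        · exact Or.inl (Or.inl hab)
        · have hne : a⁻¹ * b ≠ 1 := by
            intro h0
            exact hab (inv_mul_eq_one.mp h0)
          rcases htot _ hne with h | h
          · exact Or.inl (Or.inr h)
          · right
            right
            have he : (a⁻¹ * b)⁻¹ = b⁻¹ * a := by group
            rwa [he] at h
      toDecidableLE := fun a b => Classical.propDecidable _ }
  have i1 : MulLeftMono G := ⟨by
    intro m a b hab
    rcases hab with hab | hab
    · left
      show m * a = m * b
      rw [hab]
    · right
      have he : (m * a)⁻¹ * (m * b) = a⁻¹ * b := by group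
      show (m * a)⁻¹ * (m * b) ∈ P
      rwa [he]⟩
  have i2 : MulRightMono G := ⟨by
    intro m a b hab
    rcases hab with hab | hab
    · left
      show a * m = b * m
      rw [hab]
    · right
      have he : (a * m)⁻¹ * (b * m) = m⁻¹ * (a⁻¹ * b) * m⁻¹⁻¹ := by group
      show (a * m)⁻¹ * (b * m) ∈ P
      rw [he]
      exact hconj _ hab m⁻¹⟩
  have i3 : Nontrivial (Ser G) := by
    refine ⟨⟨0, 1, ?_⟩⟩
    intro h0
    have := congrArg (fun F : Ser G => F.c 1) h0
    simp only [zero_c, one_c, if_true] at this
    exact zero_ne_one this
  have hu : ∀ f : Ser G, IsUnit f ∨ f = 0 := by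
    intro f
    by_cases hf : f = 0
    · exact Or.inr hf
    · left
      obtain ⟨u, hu⟩ := exists_right_inv f hf
      have hu0 : u ≠ 0 := by
        intro h0
        rw [h0, mul_zero] at hu
        exact zero_ne_one hu
      obtain ⟨v, hv⟩ := exists_right_inv u hu0
      have hfv : f = v := by
        calc f = f * (u * v) := by rw [hv, mul_one]
          _ = (f * u) * v := by rw [mul_assoc]
          _ = v := by rw [hu, one_mul]
      have huf : u * f = 1 := by
        rw [hfv]
        exact hv
      exact ⟨⟨f, u, hu, huf⟩, rfl⟩
  obtain ⟨ι, hι⟩ := ser_embed (G := G)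
  exact ⟨Ser G, DivisionRing.ofIsUnitOrEqZero hu, ι, hι⟩

end Pool.Agent.PDC.MN
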