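import Mathlib
import Pool.Agent.Helper46.OF.GDefs
import Pool.Agent.PDC.MN.Defs
import Pool.Agent.PDC.MN.MagC

set_option autoImplicit false

/-!
# PDC-MN-RaagOrd: tools for the bi-order of right-angled Artin groups

PLAN biord_of_injective: preimage of the cone.
PLAN sd_biord: P_F from `free_cone` (invariant under x ↦ b • x, which is a strictly monotone bijection `MulAction.toPerm b`;
 `actF_apply`), P_B from hB.  P := {g | g.right ∈ P_B ∨ (g.right = 1 ∧ g.left ∈ P_F)}.  Products: (f,b)(f',b') = (f * b•f', b b').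
 Conjugation of (f, 1) by (f', b'): (f' * (b' • f) * f'⁻¹, 1).  (`SemidirectProduct.ext`, mul_left, mul_right, inv_left.)
PLAN coset_order: nf b := b * (ρ b)⁻¹; nf (b l) = nf b for l ∈ L (ρ l = l), so nf descends to B ⧸ L, injective (nf b = nf b' gives
 b⁻¹ b' ∈ L because ρ b ∈ L).  x < y :↔ (nf x)⁻¹ * nf y ∈ P_B.  Linear order (classical decidability).  Invariance:
 nf (c b) = c * nf b * (ρ c)⁻¹ [nf (c b) = c b ρ(b)⁻¹ ρ(c)⁻¹], so (nf (c b))⁻¹ nf (c b') = ρ c ((nf b)⁻¹ nf b') (ρ c)⁻¹.
-/

namespace Pool.Agent.PDC.MN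

open Pool.Agent.Helper46.OF

theorem biord_of_injective {G H : Type} [Group G] [Group H] (φ : G →* H)
    (hφ : Function.Injective φ) (h : BiOrd H) : BiOrd G := by
  obtain ⟨P, h1, hmul, hconj, htot⟩ := h
  refine ⟨φ ⁻¹' P, ?_, ?_, ?_, ?_⟩
  · intro h
    rw [Set.mem_preimage, map_one] at h
    exact h1 h
  · intro a ha b hb
    rw [Set.mem_preimage] at ha hb ⊢
    rw [map_mul]
    exact hmul _ ha _ hb
  · intro a ha g
    rw [Set.mem_preimage] at ha ⊢
    rw [map_mul, map_mul, map_inv]
    exact hconj _ ha _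
  · intro a ha
    rw [Set.mem_preimage, Set.mem_preimage, map_inv]
    apply htot
    intro h
    apply ha
    apply hφ
    rw [h, map_one]

theorem sd_biord (B X : Type) [Group B] [MulAction B X] [LinearOrder X]
    (hX : ∀ (b : B) (x y : X), x < y → b • x < b • y) (hB : BiOrd B) : BiOrd (SD B X) := by
  obtain ⟨F, f1, fmul, fconj, ftot, fnat⟩ := free_cone X
  obtain ⟨P, p1, pmul, pconj, ptot⟩ := hB
  have hact : ∀ (b : B) (w : FreeGroup X), w ∈ F → actF B X b w ∈ F := by
    intro b w hw
    rw [actF_apply]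
    exact fnat (MulAction.toPerm b) (fun x y h => hX b x y h) w hw
  have hcancel : ∀ (b : B) (w : FreeGroup X), actF B X b (actF B X b⁻¹ w) = w := by
    intro b w
    rw [← MulAut.mul_apply, ← map_mul, mul_inv_cancel, map_one, MulAut.one_apply]
  refine ⟨{g | g.right ∈ P ∨ (g.right = 1 ∧ g.left ∈ F)}, ?_, ?_, ?_, ?_⟩
  · rintro (h | ⟨-, h⟩)
    · exact p1 h
    · exact f1 h
  · intro a ha b hb
    rcases ha with ha | ⟨ha1, ha2⟩
    · rcases hb with hb | ⟨hb1, hb2⟩
      · left
        rw [SemidirectProduct.mul_right]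
        exact pmul _ ha _ hb
      · left
        rw [SemidirectProduct.mul_right, hb1, mul_one]
        exact ha
    · rcases hb with hb | ⟨hb1, hb2⟩
      · left
        rw [SemidirectProduct.mul_right, ha1, one_mul]
        exact hb
      · right
        rw [SemidirectProduct.mul_right, SemidirectProduct.mul_left, ha1, hb1, mul_one, map_one,
          MulAut.one_apply]
        exact ⟨rfl, fmul _ ha2 _ hb2⟩
  · intro a ha g
    rcases ha with ha | ⟨ha1, ha2⟩
    · left
      rw [SemidirectProduct.mul_right, SemidirectProduct.mul_right, SemidirectProduct.inv_right]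
      exact pconj _ ha _
    · right
      rw [SemidirectProduct.mul_right, SemidirectProduct.mul_right, SemidirectProduct.inv_right,
        SemidirectProduct.mul_left, SemidirectProduct.mul_left, SemidirectProduct.mul_right,
        SemidirectProduct.inv_left, ha1, mul_one, hcancel]
      exact ⟨mul_inv_cancel _, fconj _ (hact _ _ ha2) _⟩
  · intro a ha
    by_cases hr : a.right = 1
    · have hl : a.left ≠ 1 := by
        intro hl
        apply ha
        apply SemidirectProduct.ext
        · exact hl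
        · exact hr
      rcases ftot _ hl with h | h
      · exact Or.inl (Or.inr ⟨hr, h⟩)
      · refine Or.inr (Or.inr ⟨?_, ?_⟩)
        · rw [SemidirectProduct.inv_right, hr, inv_one]
        · rw [SemidirectProduct.inv_left, hr, inv_one, map_one, MulAut.one_apply]
          exact h
    · rcases ptot _ hr with h | h
      · exact Or.inl (Or.inl h)
      · refine Or.inr (Or.inl ?_)
        rw [SemidirectProduct.inv_right]
        exact h

theorem coset_order {B : Type} [Group B] (hB : BiOrd B) (L : Subgroup B) (ρ : B →* B)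
    (h1 : ∀ x, ρ x ∈ L) (h2 : ∀ x ∈ L, ρ x = x) :
    ∃ o : LinearOrder (B ⧸ L), ∀ (b : B) (x y : B ⧸ L), o.lt x y → o.lt (b • x) (b • y) := by
  classical
  obtain ⟨P, p1, pmul, pconj, ptot⟩ := hB
  have hwd : ∀ a b : B, (QuotientGroup.leftRel L) a b → a * (ρ a)⁻¹ = b * (ρ b)⁻¹ := by
    intro a b hab
    rw [QuotientGroup.leftRel_apply] at hab
    have h := h2 _ hab
    rw [map_mul, map_inv] at h
    rw [eq_mul_inv_iff_mul_eq, mul_assoc, h, mul_inv_cancel_left]
  let n : B ⧸ L → B := fun x => Quotient.liftOn' x (fun a => a * (ρ a)⁻¹) hwd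
  have hn : ∀ a : B, n (QuotientGroup.mk a) = a * (ρ a)⁻¹ := fun a => rfl
  have hinj : Function.Injective n := by
    intro x y
    refine Quotient.inductionOn₂' x y fun a b h => ?_
    have h' : a * (ρ a)⁻¹ = b * (ρ b)⁻¹ := h
    apply Quotient.sound'
    rw [QuotientGroup.leftRel_apply]
    have h3 : a⁻¹ * b = (ρ a)⁻¹ * ρ b := by
      rw [inv_mul_eq_iff_eq_mul, ← mul_assoc, h', inv_mul_cancel_right]
    rw [h3]
    exact L.mul_mem (L.inv_mem (h1 a)) (h1 b)
  let r : B ⧸ L → B ⧸ L → Prop := fun x y => (n x)⁻¹ * n y ∈ P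
  have hirr : ∀ x, ¬ r x x := by
    intro x h
    have h' : (n x)⁻¹ * n x ∈ P := h
    rw [inv_mul_cancel] at h'
    exact p1 h'
  have htr : ∀ x y z, r x y → r y z → r x z := by
    intro x y z hxy hyz
    have h : (n x)⁻¹ * n y * ((n y)⁻¹ * n z) ∈ P := pmul _ hxy _ hyz
    rw [mul_assoc, mul_inv_cancel_left] at h
    exact h
  have htri : ∀ x y, x ≠ y → r x y ∨ r y x := by
    intro x y hxy
    have h : (n x)⁻¹ * n y ≠ 1 := by
      intro h
      rw [inv_mul_eq_one] at h
      exact hxy (hinj h)
    rcases ptot _ h with h | h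
    · exact Or.inl h
    · rw [mul_inv_rev, inv_inv] at h
      exact Or.inr h
  refine ⟨{ le := fun x y => x = y ∨ r x y
            lt := r
            le_refl := fun x => Or.inl rfl
            le_trans := ?_
            lt_iff_le_not_ge := ?_
            le_antisymm := ?_
            le_total := ?_
            toDecidableLE := Classical.decRel _ }, ?_⟩
  · rintro x y z (rfl | hxy) (rfl | hyz)
    · exact Or.inl rfl
    · exact Or.inr hyz
    · exact Or.inr hxy
    · exact Or.inr (htr x y z hxy hyz)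
  · intro x y
    constructor
    · intro h
      refine ⟨Or.inr h, ?_⟩
      rintro (h' | h')
      · subst h'
        exact hirr _ h
      · exact hirr _ (htr _ _ _ h h')
    · rintro ⟨h | h, h'⟩
      · exact absurd (Or.inl h.symm) h'
      · exact h
  · rintro x y (h | h) (h' | h')
    · exact h
    · exact h
    · exact h'.symm
    · exact absurd (htr _ _ _ h h') (hirr _)
  · intro x y
    by_cases h : x = y
    · exact Or.inl (Or.inl h)
    · rcases htri x y h with h | h
      · exact Or.inl (Or.inr h)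
      · exact Or.inr (Or.inr h)
  · intro b x y
    refine Quotient.inductionOn₂' x y fun c c' h => ?_
    have h' : (c * (ρ c)⁻¹)⁻¹ * (c' * (ρ c')⁻¹) ∈ P := h
    change (b * c * (ρ (b * c))⁻¹)⁻¹ * (b * c' * (ρ (b * c'))⁻¹) ∈ P
    have e : (b * c * (ρ (b * c))⁻¹)⁻¹ * (b * c' * (ρ (b * c'))⁻¹) =
        ρ b * ((c * (ρ c)⁻¹)⁻¹ * (c' * (ρ c')⁻¹)) * (ρ b)⁻¹ := by
      rw [map_mul, map_mul]
      group
    rw [e]
    exact pconj _ h' _

end Pool.Agent.PDC.MN
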