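import Mathlib
import Pool.Agent.Helper46.OF.RA1
import Pool.Agent.Helper46.OF.RA2
import Pool.Agent.PDC.MN.RaagOrd

set_option autoImplicit false

/-!
# PDC-MN-RaagBi: right-angled Artin groups on finite graphs are bi-orderable

PLAN.  Induction on Nat.card V (generalizing V, Γ).  V empty: Raag Γ is trivial (generated by the empty family, `mem_of_og`
with the subgroup ⊥): P = ∅.  Otherwise v : V; B := Raag (Gm Γ v), vertices Vm v (one vertex less; finite), BiOrd B by induction.
ρ from `lk_retract Γ v`; `coset_order` gives a B-invariant linear order on B ⧸ Lk Γ v; `sd_biord`; Θ from `exists_theta Γ v`;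
`biord_of_injective` with Θ.
-/

namespace Pool.Agent.PDC.MN

open Pool.Agent.Helper96.OF Pool.Agent.Helper46.OF

private theorem raag_biord_aux : ∀ (n : ℕ) (V : Type) [Finite V] (Γ : SimpleGraph V),
    Nat.card V = n → BiOrd (Raag Γ) := by
  intro n
  induction n with
  | zero =>
    intro V _ Γ hn
    have hE : IsEmpty V := Finite.card_eq_zero_iff.1 hn
    refine ⟨∅, Set.notMem_empty _, fun a ha => absurd ha (Set.notMem_empty _),
      fun a ha => absurd ha (Set.notMem_empty _), fun a ha => ?_⟩
    exfalso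
    apply ha
    have h1 : a ∈ (⊥ : Subgroup (Raag Γ)) := mem_of_og Γ ⊥ (fun w => (hE.false w).elim) a
    exact (Subgroup.mem_bot).1 h1
  | succ n ih =>
    intro V _ Γ hn
    have hne : Nonempty V := by
      by_contra h
      rw [not_nonempty_iff] at h
      rw [Nat.card_of_isEmpty] at hn
      omega
    obtain ⟨v⟩ := hne
    have hcard : Nat.card (Vm v) = n := by
      classical
      haveI : Fintype V := Fintype.ofFinite V
      have h1 : Nat.card (Vm v) = Fintype.card {w : V // w ≠ v} := Nat.card_eq_fintype_card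
      rw [h1, Fintype.card_subtype_compl, ← Nat.card_eq_fintype_card (α := V), hn]
      simp
    have hB : BiOrd (Raag (Gm Γ v)) := ih (Vm v) (Gm Γ v) hcard
    obtain ⟨ρ, h1, h2⟩ := lk_retract Γ v
    obtain ⟨o, ho⟩ := coset_order hB (Lk Γ v) ρ h1 h2
    obtain ⟨Θ, _, _⟩ := exists_theta Γ v
    have h3 : BiOrd (SD (Raag (Gm Γ v)) (Raag (Gm Γ v) ⧸ Lk Γ v)) :=
      @sd_biord (Raag (Gm Γ v)) (Raag (Gm Γ v) ⧸ Lk Γ v) _ _ o ho hB
    exact biord_of_injective Θ.toMonoidHom Θ.injective h3

theorem raag_biord {V : Type} [Finite V] (Γ : SimpleGraph V) : BiOrd (Raag Γ) :=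
  raag_biord_aux (Nat.card V) V Γ rfl

end Pool.Agent.PDC.MN
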