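import Mathlib
import Pool.Agent.Helper46.OF.RA1
import Pool.Agent.Helper46.OF.RA2
import Pool.Agent.PDC.CayT

set_option autoImplicit false

/-!
# PDC-MN-RaagHier: groups with a homomorphism to a right-angled Artin group whose kernel is in Hier

PLAN.  Induction on Nat.card V (generalizing V, Γ, L).  V empty: Raag Γ trivial, φ.ker = ⊤, (⊤).map L.subtype = L.
Otherwise v : V, B := Raag (Gm Γ v), Θ from `exists_theta Γ v`.  φ' : L →* B, φ' g = (Θ (φ g)).right (SemidirectProduct.rightHom).
By the induction hypothesis for B it is enough: Hier (φ'.ker.map L.subtype) =: Hier L'.  For g ∈ L' (an element of L with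
(Θ (φ g)).right = 1) the map ψ : L' →* FreeGroup X, g ↦ (Θ (φ g)).left is a homomorphism (mul_left with trivial right
components) with kernel (mapped to Γ1) equal to φ.ker.map L.subtype (left = 1 and right = 1 iff Θ (φ g) = 1 iff φ g = 1).
`hier_of_hom_free` with L', X = B ⧸ Lk Γ v.
-/

namespace Pool.Agent.PDC.MN

open Pool.Agent.Helper96.OF Pool.Agent.Helper46.OF

private theorem raag_hier_aux (n : ℕ) : ∀ {V : Type} [Finite V] (Γ : SimpleGraph V) {Γ1 : Type}
    [Group Γ1] (L : Subgroup Γ1) (φ : L →* Raag Γ), Nat.card V = n →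
    Hier (φ.ker.map L.subtype) → Hier L := by
  induction n using Nat.strong_induction_on with
  | _ n ih =>
    intro V _ Γ Γ1 _ L φ hn h
    rcases isEmpty_or_nonempty V with hV | ⟨⟨v⟩⟩
    · have h1 : φ.ker = ⊤ := by
        rw [eq_top_iff]
        intro x _
        rw [MonoidHom.mem_ker]
        have h2 := mem_of_og Γ (⊥ : Subgroup (Raag Γ)) (fun w => (hV.false w).elim) (φ x)
        exact Subgroup.mem_bot.1 h2
      have h3 : (⊤ : Subgroup L).map L.subtype = L := by
        rw [← MonoidHom.range_eq_map, Subgroup.range_subtype]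
      rw [h1, h3] at h
      exact h
    · obtain ⟨Θ, -, -⟩ := exists_theta Γ v
      have hlt : Nat.card (Vm v) < n := by
        rw [← hn]
        exact Finite.card_subtype_lt (p := fun w => w ≠ v) (x := v) (fun h' => h' rfl)
      obtain ⟨φ', hφ'⟩ : ∃ φ' : L →* Raag (Gm Γ v), ∀ g, φ' g = (Θ (φ g)).right :=
        ⟨SemidirectProduct.rightHom.comp (Θ.toMonoidHom.comp φ), fun g => rfl⟩
      refine ih (Nat.card (Vm v)) hlt (Gm Γ v) L φ' rfl ?_
      have hle : ∀ g : (φ'.ker.map L.subtype : Subgroup Γ1), (g : Γ1) ∈ L := by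
        rintro ⟨_, l, _, rfl⟩
        exact l.2
      have hright : ∀ g : (φ'.ker.map L.subtype : Subgroup Γ1),
          (Θ (φ ⟨(g : Γ1), hle g⟩)).right = 1 := by
        rintro ⟨_, l, hl, rfl⟩
        rw [← hφ']
        exact MonoidHom.mem_ker.1 hl
      let ψ : (φ'.ker.map L.subtype : Subgroup Γ1) →*
          FreeGroup (Raag (Gm Γ v) ⧸ Lk Γ v) :=
        MonoidHom.mk' (fun g => (Θ (φ ⟨(g : Γ1), hle g⟩)).left) (by
          intro a b
          have e1 : (⟨((a * b : (φ'.ker.map L.subtype : Subgroup Γ1)) : Γ1), hle (a * b)⟩ : L) =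
              ⟨(a : Γ1), hle a⟩ * ⟨(b : Γ1), hle b⟩ := rfl
          rw [e1, map_mul, map_mul, SemidirectProduct.mul_left, hright a, map_one]
          rfl)
      have hψ : ∀ g, ψ g = (Θ (φ ⟨(g : Γ1), hle g⟩)).left := fun g => rfl
      apply hier_of_hom_free _ _ ψ
      have hk : ψ.ker.map (φ'.ker.map L.subtype).subtype = φ.ker.map L.subtype := by
        ext x
        rw [Subgroup.mem_map, Subgroup.mem_map]
        constructor
        · rintro ⟨g, hg, rfl⟩
          refine ⟨⟨(g : Γ1), hle g⟩, ?_, rfl⟩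
          rw [MonoidHom.mem_ker, hψ] at hg
          rw [MonoidHom.mem_ker]
          apply Θ.injective
          rw [map_one]
          exact SemidirectProduct.ext hg (hright g)
        · rintro ⟨l, hl, rfl⟩
          rw [MonoidHom.mem_ker] at hl
          refine ⟨⟨(l : Γ1), ⟨l, ?_, rfl⟩⟩, ?_, rfl⟩
          · change l ∈ φ'.ker
            rw [MonoidHom.mem_ker, hφ', hl, map_one]
            rfl
          · rw [MonoidHom.mem_ker, hψ]
            change (Θ (φ l)).left = 1
            rw [hl, map_one]
            rfl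
      rw [hk]
      exact h

theorem raag_hier {V : Type} [Finite V] (Γ : SimpleGraph V) {Γ1 : Type} [Group Γ1]
    (L : Subgroup Γ1) (φ : L →* Raag Γ) (h : Hier (φ.ker.map L.subtype)) : Hier L := by
  exact raag_hier_aux (Nat.card V) Γ L φ rfl h

end Pool.Agent.PDC.MN
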