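import Mathlib
import Pool.Agent.PDC.ThmB
import Pool.Agent.PDC.MN.Main
import Pool.Agent.PDC.MN.RaagBi
import Pool.Agent.PDC.MN.RaagHier

set_option autoImplicit false

/-!
# PDC-MN-RaagFP: PD3-groups virtually embedded in right-angled Artin groups

PLAN.  BiOrd (Raag Γ) (`raag_biord`), BiOrd G1 (`biord_of_injective`), `division_of_biord` for G1.  Hier (⊤ : Subgroup G1): `raag_hier`
with L = ⊤ and φ composed with (⊤ : Subgroup G1).subtype (injective): its kernel is ⊥, Hier of ⊥ by `Hier.base` (K ≤ ⊥ is the trivial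
group, finite, finitely presented instance).  `thmB`.
-/

namespace Pool.Agent.PDC.MN

open Pool.Agent.Helper96.OF Pool.Agent.Helper46.OF

theorem raag_fp {G : Type} [Group G] (X : PD3 G) (G1 : Subgroup G) [G1.FiniteIndex]
    {V : Type} [Finite V] (Γ : SimpleGraph V) (φ : G1 →* Raag Γ) (hφ : Function.Injective φ)
    (K : Subgroup G) (hK : K.FG) : Group.IsFinitelyPresented K := by
  have hbi : BiOrd G1 := biord_of_injective φ hφ (raag_biord Γ)
  obtain ⟨D, _, f, hf⟩ := division_of_biord hbi
  have hinj : Function.Injective (φ.comp (⊤ : Subgroup G1).subtype) :=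
    hφ.comp (⊤ : Subgroup G1).subtype_injective
  have hker : (φ.comp (⊤ : Subgroup G1).subtype).ker = ⊥ :=
    (MonoidHom.ker_eq_bot_iff _).2 hinj
  have hH : Hier (⊤ : Subgroup G1) := by
    refine raag_hier Γ ⊤ (φ.comp (⊤ : Subgroup G1).subtype) ?_
    rw [hker, Subgroup.map_bot]
    refine Hier.base ⊥ ?_
    intro L hL _
    have hbot : L = ⊥ := le_bot_iff.1 hL
    subst hbot
    infer_instance
  exact thmB X G1 f hf hH K hK

end Pool.Agent.PDC.MN
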